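import Mathlib

/-! Regular systems of parameters containing a given element of order one. -/

noncomputable section

namespace Pool.Agent.H968R2.FL

open IsLocalRing Module

variable {B : Type*} [CommRing B] [IsRegularLocalRing B]

theorem finrank_cotangent : (Module.finrank (ResidueField B) (CotangentSpace B) : WithBot ℕ∞) =
    ringKrullDim B := (IsRegularLocalRing.iff_finrank_cotangentSpace B).1 inferInstance

/-- generators of the maximal ideal from a basis of the cotangent space -/
theorem span_of_basis {ι : Type*} (b : Basis ι (ResidueField B) (CotangentSpace B))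
    (z : ι → maximalIdeal B) (hz : ∀ i, (maximalIdeal B).toCotangent (z i) = b i) :
    Ideal.span (Set.range fun i => (z i : B)) = maximalIdeal B := by
  have h1 : Submodule.span (ResidueField B) ((maximalIdeal B).toCotangent '' Set.range z) = ⊤ := by
    rw [← b.span_eq]
    congr 1
    ext v
    constructor
    · rintro ⟨_, ⟨i, rfl⟩, rfl⟩
      exact ⟨i, (hz i).symm⟩
    · rintro ⟨i, rfl⟩
      exact ⟨z i, ⟨i, rfl⟩, hz i⟩
  have h2 := CotangentSpace.span_image_eq_top_iff.1 h1
  have h3 := congrArg (Submodule.map (maximalIdeal B).subtype) h2
  rw [Submodule.map_span, Submodule.map_top, Submodule.range_subtype, ← Set.range_comp] at h3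
  exact h3

theorem exists_param : ∃ (d : ℕ) (z : Fin d → B), ringKrullDim B = d ∧
    Ideal.span (Set.range z) = maximalIdeal B := by
  let b := Module.finBasis (ResidueField B) (CotangentSpace B)
  choose z hz using fun i => Ideal.toCotangent_surjective (maximalIdeal B) (b i)
  exact ⟨_, fun i => (z i : B), finrank_cotangent.symm, span_of_basis b z hz⟩

theorem exists_param_of_mem (t : B) (ht : t ∈ maximalIdeal B) (ht2 : t ∉ maximalIdeal B ^ 2) :
    ∃ (d : ℕ) (z : Fin d → B) (i₀ : Fin d), ringKrullDim B = d ∧
      Ideal.span (Set.range z) = maximalIdeal B ∧ z i₀ = t := by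
  classical
  let v : CotangentSpace B := (maximalIdeal B).toCotangent ⟨t, ht⟩
  have hv : v ≠ 0 := by
    intro h
    exact ht2 ((Ideal.toCotangent_eq_zero _ _).1 h)
  have hli : LinearIndepOn (ResidueField B) id ({v} : Set (CotangentSpace B)) := by
    exact .singleton hv
  let b := Basis.extend hli
  have hmem : v ∈ hli.extend (Set.subset_univ _) := hli.subset_extend _ rfl
  let w : hli.extend (Set.subset_univ _) := ⟨v, hmem⟩
  have hbw : b w = v := Basis.extend_apply_self hli w
  choose z hz using fun i => Ideal.toCotangent_surjective (maximalIdeal B) (b i)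
  have hfin : Fintype (hli.extend (Set.subset_univ _)) := by
    have := Module.Finite.finite_basis b
    exact Fintype.ofFinite _
  have hcard : Fintype.card (hli.extend (Set.subset_univ _)) =
      Module.finrank (ResidueField B) (CotangentSpace B) := (Module.finrank_eq_card_basis b).symm
  let e := Fintype.equivFin (hli.extend (Set.subset_univ _))
  let z' : hli.extend (Set.subset_univ _) → maximalIdeal B := Function.update z w ⟨t, ht⟩
  have hz' : ∀ i, (maximalIdeal B).toCotangent (z' i) = b i := by
    intro i
    by_cases hi : i = w
    · subst hi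
      simp only [z', Function.update_self]
      exact hbw.symm
    · simp only [z', Function.update_of_ne hi]
      exact hz i
  refine ⟨_, fun i => (z' (e.symm i) : B), e w, ?_, ?_, ?_⟩
  · rw [hcard]
    exact finrank_cotangent.symm
  · have h1 := span_of_basis b z' hz'
    have h2 : (Set.range fun i => (z' (e.symm i) : B)) = Set.range fun i => (z' i : B) := by
      ext x
      constructor
      · rintro ⟨i, rfl⟩
        exact ⟨e.symm i, rfl⟩
      · rintro ⟨i, rfl⟩
        exact ⟨e i, by simp⟩
    rw [h2]
    exact h1
  · simp [z']

end Pool.Agent.H968R2.FL
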