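import Pool.Agent.H968R2.FL.Coord

/-! The coordinate ring `R` of the cone over the rational normal curve of degree `p` times an affine
space, as the intersection of two polynomial rings. -/

noncomputable section

namespace Pool.Agent.H968R2.FL

open MvPolynomial

universe u

variable {k K : Type u} [Field k] [Field K] [Algebra k K] {m : ℕ}

namespace Coord

variable (C : Coord k K (m + 2)) (p : ℕ)

/-- the coordinates `x_0⁻¹, x_0^p x_1, x_2, …` -/
def twistX : Fin (m + 2) → K := fun i =>
  if i = 0 then (C.x 0)⁻¹ else if i = 1 then C.x 0 ^ p * C.x 1 else C.x i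

theorem twistX_zero : C.twistX p 0 = (C.x 0)⁻¹ := by simp [twistX]

theorem twistX_one : C.twistX p 1 = C.x 0 ^ p * C.x 1 := by simp [twistX]

theorem twistX_of_ne {i : Fin (m + 2)} (h0 : i ≠ 0) (h1 : i ≠ 1) : C.twistX p i = C.x i := by
  simp [twistX, h0, h1]

theorem twist_aux (i : Fin (m + 2)) :
    ∃ a s : Algebra.adjoin k (Set.range (C.twistX p)), (s : K) ≠ 0 ∧ C.x i * (s : K) = (a : K) := by
  have hx0 := C.x_ne_zero 0
  have hm : ∀ i, C.twistX p i ∈ Algebra.adjoin k (Set.range (C.twistX p)) := fun i =>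
    Algebra.subset_adjoin ⟨i, rfl⟩
  by_cases h0 : i = 0
  · subst h0
    refine ⟨1, ⟨_, hm 0⟩, ?_, ?_⟩
    · simp [twistX_zero, hx0]
    · simp [twistX_zero, hx0]
  · by_cases h1 : i = 1
    · subst h1
      refine ⟨⟨_, Subalgebra.mul_mem _ (Subalgebra.pow_mem _ (hm 0) p) (hm 1)⟩, 1, by simp, ?_⟩
      simp only [twistX_zero, twistX_one]
      push_cast
      rw [← mul_assoc, ← mul_pow, inv_mul_cancel₀ hx0, one_pow, one_mul, mul_one]
    · refine ⟨⟨_, hm i⟩, 1, by simp, ?_⟩
      simp [twistX_of_ne C p h0 h1]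

/-- the second coordinate system -/
def twist : Coord k K (m + 2) := C.ofGen (C.twistX p) (C.twist_aux p)

theorem twist_x : (C.twist p).x = C.twistX p := rfl

theorem twist_twist_x : ((C.twist p).twist p).x = C.x := by
  have hx0 := C.x_ne_zero 0
  funext i
  rw [twist_x]
  by_cases h0 : i = 0
  · subst h0
    rw [twistX_zero, twist_x, twistX_zero, inv_inv]
  · by_cases h1 : i = 1
    · subst h1
      rw [twistX_one, twist_x, twistX_zero, twistX_one, ← mul_assoc, ← mul_pow,
        inv_mul_cancel₀ hx0, one_pow, one_mul]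
    · rw [twistX_of_ne _ _ h0 h1, twist_x, twistX_of_ne _ _ h0 h1]

theorem twist_twist_ring : ((C.twist p).twist p).ring = C.ring := by
  rw [ring, ring, twist_twist_x]

/-- the coordinate ring of the cone -/
def R : Subalgebra k K := C.ring ⊓ (C.twist p).ring

theorem twist_R : (C.twist p).R p = C.R p := by
  rw [R, R, twist_twist_ring, inf_comm]

theorem R_le : C.R p ≤ C.ring := inf_le_left

theorem R_le_twist : C.R p ≤ (C.twist p).ring := inf_le_right

/-- value of a monomial in the two coordinate systems -/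
theorem ev_monomial (e : Fin (m + 2) →₀ ℕ) (c : k) :
    C.ev (monomial e c) = algebraMap k K c * ∏ i, C.x i ^ e i := by
  rw [ev, aeval_monomial, Finsupp.prod_fintype]
  intro i
  simp

theorem prod_split (f : Fin (m + 2) → K) :
    ∏ i, f i = f 0 * f 1 * ∏ i : Fin m, f i.succ.succ := by
  rw [Fin.prod_univ_succ, Fin.prod_univ_succ, mul_assoc]
  rfl

/-- `X_0^N` times a monomial in the twisted coordinates -/
theorem twist_monomial (e : Fin (m + 2) →₀ ℕ) (c : k) (N : ℕ) (hN : e 0 ≤ N) :
    C.x 0 ^ N * (C.twist p).ev (monomial e c) =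
      C.ev (monomial (e.update 0 (N - e 0 + p * e 1)) c) := by
  have hx0 := C.x_ne_zero 0
  rw [ev_monomial, ev_monomial, prod_split, prod_split, twist_x, twistX_zero, twistX_one]
  have h1 : ∀ i : Fin m, C.twistX p i.succ.succ = C.x i.succ.succ := fun i =>
    C.twistX_of_ne p (Fin.succ_ne_zero _) (by
      intro h
      have := congrArg Fin.val h
      simp at this)
  have h2 : ∀ i : Fin m, e.update 0 (N - e 0 + p * e 1) i.succ.succ = e i.succ.succ := fun i => by
    simp [Finsupp.update_apply]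
  have h3 : e.update 0 (N - e 0 + p * e 1) 0 = N - e 0 + p * e 1 := by simp
  have h4 : e.update 0 (N - e 0 + p * e 1) 1 = e 1 := by simp [Finsupp.update_apply]
  simp only [h1, h2, h3, h4]
  have h5 : C.x 0 ^ N * ((C.x 0)⁻¹ ^ e 0 * (C.x 0 ^ p * C.x 1) ^ e 1) =
      C.x 0 ^ (N - e 0 + p * e 1) * C.x 1 ^ e 1 := by
    obtain ⟨r, rfl⟩ := exists_add_of_le hN
    rw [Nat.add_sub_cancel_left, pow_add, pow_add, mul_pow, ← pow_mul, inv_pow]
    field_simp
  calc _ = algebraMap k K c * (C.x 0 ^ N * ((C.x 0)⁻¹ ^ e 0 * (C.x 0 ^ p * C.x 1) ^ e 1)) *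
        ∏ i : Fin m, C.x i.succ.succ ^ e i.succ.succ := by ring
    _ = _ := by rw [h5]; ring

theorem monomial_mem_twist (e : Fin (m + 2) →₀ ℕ) (c : k) (h : e 0 ≤ p * e 1) :
    C.ev (monomial e c) ∈ (C.twist p).ring := by
  have hx0 := C.x_ne_zero 0
  have key : C.ev (monomial e c) = (C.twist p).ev (monomial (e.update 0 (p * e 1 - e 0)) c) := by
    have := C.twist_monomial p (e.update 0 (p * e 1 - e 0)) c (p * e 1 - e 0) (by simp)
    have h4 : e.update 0 (p * e 1 - e 0) 1 = e 1 := by simp [Finsupp.update_apply]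
    have h5 : (e.update 0 (p * e 1 - e 0)).update 0
        (p * e 1 - e 0 - (e.update 0 (p * e 1 - e 0)) 0 + p * (e.update 0 (p * e 1 - e 0)) 1) =
        e.update 0 (p * e 1) := by
      rw [h4]
      simp
    rw [h5] at this
    have h6 : C.ev (monomial (e.update 0 (p * e 1)) c) =
        C.x 0 ^ (p * e 1 - e 0) * C.ev (monomial e c) := by
      rw [ev_monomial, ev_monomial, prod_split, prod_split]
      have h2 : ∀ i : Fin m, e.update 0 (p * e 1) i.succ.succ = e i.succ.succ := fun i => by
        simp [Finsupp.update_apply]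
      have h3 : e.update 0 (p * e 1) 0 = p * e 1 := by simp
      have h4 : e.update 0 (p * e 1) 1 = e 1 := by simp [Finsupp.update_apply]
      simp only [h2, h3, h4]
      obtain ⟨r, hr⟩ := exists_add_of_le h
      rw [hr, Nat.add_sub_cancel_left, pow_add]
      ring
    rw [h6] at this
    exact (mul_left_cancel₀ (pow_ne_zero _ hx0) this).symm
  rw [key]
  exact ev_mem _ _

theorem mem_R_iff (F : MvPolynomial (Fin (m + 2)) k) :
    C.ev F ∈ C.R p ↔ ∀ e ∈ F.support, e 0 ≤ p * e 1 := by
  constructor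
  · rintro ⟨-, h⟩ e' he'
    obtain ⟨G, hG⟩ := (C.twist p).exists_ev h
    obtain ⟨N, hN⟩ : ∃ N : ℕ, ∀ e ∈ G.support, e 0 ≤ N :=
      ⟨G.support.sup fun e => e 0, fun e he => Finset.le_sup (f := fun e => e 0) he⟩
    have h1 : C.ev (X 0 ^ N * F) =
        C.ev (∑ e ∈ G.support, monomial (e.update 0 (N - e 0 + p * e 1)) (coeff e G)) := by
      rw [map_mul, map_pow, ev_X, ← hG, map_sum]
      conv_lhs => rw [G.as_sum]
      rw [map_sum, Finset.mul_sum]
      exact Finset.sum_congr rfl fun e he => C.twist_monomial p e _ N (hN e he)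
    have h2 := C.ev_injective h1
    have h3 : coeff (Finsupp.single 0 N + e') (X 0 ^ N * F) ≠ 0 := by
      rw [X_pow_eq_monomial, coeff_monomial_mul, one_mul]
      exact mem_support_iff.1 he'
    rw [h2, coeff_sum] at h3
    obtain ⟨e, he, hne⟩ := Finset.exists_ne_zero_of_sum_ne_zero h3
    rw [coeff_monomial] at hne
    have h4 : e.update 0 (N - e 0 + p * e 1) = Finsupp.single 0 N + e' := by
      by_contra hcon
      exact hne (if_neg hcon)
    have h5 := DFunLike.congr_fun h4 0
    have h6 := DFunLike.congr_fun h4 1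
    simp [Finsupp.update_apply] at h5 h6
    rw [← h6]
    omega
  · intro h
    refine ⟨C.ev_mem F, ?_⟩
    rw [F.as_sum, map_sum]
    exact Subalgebra.sum_mem _ fun e he => C.monomial_mem_twist p e _ (h e he)

end Coord

end Pool.Agent.H968R2.FL
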