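import Pool.Agent.H968R2.FL.Loc

/-! Coordinate systems of a rational function field. -/

noncomputable section

namespace Pool.Agent.H968R2.FL

open MvPolynomial

universe u

variable {k K : Type u} [Field k] [Field K] [Algebra k K]

/-- algebraically independent generators of the field `K` over `k` -/
structure Coord (k K : Type u) [Field k] [Field K] [Algebra k K] (n : ℕ) where
  x : Fin n → K
  indep : AlgebraicIndependent k x
  frac : IsFractionRing (Algebra.adjoin k (Set.range x)) K

namespace Coord

variable {n : ℕ} (C : Coord k K n)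

/-- the polynomial ring -/
def ring : Subalgebra k K := Algebra.adjoin k (Set.range C.x)

instance : IsFractionRing C.ring K := C.frac

/-- evaluation -/
def ev : MvPolynomial (Fin n) k →ₐ[k] K := aeval C.x

/-- the isomorphism with the polynomial ring -/
def equiv : MvPolynomial (Fin n) k ≃ₐ[k] C.ring := C.indep.aevalEquiv

theorem equiv_coe (F : MvPolynomial (Fin n) k) : ((C.equiv F : C.ring) : K) = C.ev F :=
  C.indep.algebraMap_aevalEquiv F

theorem ev_injective : Function.Injective C.ev := C.indep

theorem ev_mem (F : MvPolynomial (Fin n) k) : C.ev F ∈ C.ring := by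
  rw [← C.equiv_coe]
  exact (C.equiv F).2

theorem exists_ev {f : K} (hf : f ∈ C.ring) : ∃ F, C.ev F = f := by
  refine ⟨C.equiv.symm ⟨f, hf⟩, ?_⟩
  rw [← C.equiv_coe, AlgEquiv.apply_symm_apply]

theorem x_mem (i : Fin n) : C.x i ∈ C.ring := Algebra.subset_adjoin ⟨i, rfl⟩

theorem ev_X (i : Fin n) : C.ev (X i) = C.x i := aeval_X _ _

theorem x_ne_zero (i : Fin n) : C.x i ≠ 0 := by
  intro h
  have : C.ev (X i) = C.ev 0 := by rw [C.ev_X, h, map_zero]
  exact X_ne_zero i (C.ev_injective this)

theorem fg : C.ring.FG := Subalgebra.fg_def.2 ⟨_, Set.finite_range _, rfl⟩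

instance : IsNoetherianRing C.ring := isNoetherianRing_of_ringEquiv _ C.equiv.toRingEquiv

instance : IsIntegrallyClosed C.ring := by
  have : IsIntegrallyClosed (MvPolynomial (Fin n) k) := inferInstance
  exact IsIntegrallyClosed.of_equiv C.equiv.toRingEquiv

instance : Algebra.FormallySmooth k C.ring := Algebra.FormallySmooth.of_equiv C.equiv

instance : IsRegularRing C.ring := IsRegularRing.of_ringEquiv C.equiv.toRingEquiv

theorem smooth_locAt (P : Ideal C.ring) [P.IsPrime] : Algebra.FormallySmooth k (locAt C.ring P) := by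
  have : Algebra.FormallySmooth C.ring (locAt C.ring P) :=
    Algebra.FormallySmooth.of_isLocalization P.primeCompl
  exact Algebra.FormallySmooth.comp k C.ring (locAt C.ring P)

include C in
theorem trdeg_eq : Algebra.trdeg k K = n := by
  have h : IsTranscendenceBasis k C.x := by
    have := C.frac
    have : Algebra.IsAlgebraic (Algebra.adjoin k (Set.range C.x)) K :=
      IsLocalization.isAlgebraic _ (nonZeroDivisors (Algebra.adjoin k (Set.range C.x)))
    exact C.indep.isTranscendenceBasis_iff_isAlgebraic.2 this
  have := h.lift_cardinalMk_eq_trdeg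
  simpa using this.symm

/-- `n` elements which generate the field are algebraically independent -/
def ofGen (y : Fin n → K) (h : ∀ i, ∃ a s : Algebra.adjoin k (Set.range y), (s : K) ≠ 0 ∧
    C.x i * (s : K) = (a : K)) : Coord k K n := by
  have frac : IsFractionRing (Algebra.adjoin k (Set.range y)) K := by
    let L : Subalgebra k K :=
      { carrier := {f | ∃ a s : Algebra.adjoin k (Set.range y), (s : K) ≠ 0 ∧ f * (s : K) = (a : K)}
        mul_mem' := by
          rintro f g ⟨a, s, hs, e⟩ ⟨b, t, ht, e'⟩
          refine ⟨a * b, s * t, by push_cast; exact mul_ne_zero hs ht, ?_⟩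
          push_cast
          rw [← e, ← e']
          ring
        add_mem' := by
          rintro f g ⟨a, s, hs, e⟩ ⟨b, t, ht, e'⟩
          refine ⟨a * t + b * s, s * t, by push_cast; exact mul_ne_zero hs ht, ?_⟩
          push_cast
          rw [← e, ← e']
          ring
        algebraMap_mem' := fun c => ⟨algebraMap k _ c, 1, by simp, by simp⟩ }
    have hL : C.ring ≤ L := by
      refine Algebra.adjoin_le ?_
      rintro _ ⟨i, rfl⟩
      exact h i
    have hinv : ∀ f ∈ L, f⁻¹ ∈ L := by
      rintro f ⟨a, s, hs, e⟩
      by_cases hf : f = 0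
      · subst hf
        simp
      · refine ⟨s, a, ?_, ?_⟩
        · rw [← e]
          exact mul_ne_zero hf hs
        · rw [← e]
          field_simp
    have hall : ∀ f : K, f ∈ L := by
      intro f
      obtain ⟨a, s, hs, rfl⟩ := IsFractionRing.div_surjective (A := C.ring) f
      rw [div_eq_mul_inv]
      exact L.mul_mem (hL a.2) (hinv _ (hL s.2))
    refine ⟨?_, ?_, ?_⟩
    · rintro ⟨b, hb⟩
      have hb0 : b ≠ 0 := nonZeroDivisors.ne_zero hb
      have : (b : K) ≠ 0 := fun h0 => hb0 (Subtype.ext h0)
      exact IsUnit.mk0 _ this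
    · intro z
      obtain ⟨a, s, hs, e⟩ := hall z
      refine ⟨(a, ⟨s, ?_⟩), e⟩
      apply mem_nonZeroDivisors_of_ne_zero
      intro h0
      apply hs
      rw [h0]
      rfl
    · intro a b hab
      refine ⟨1, ?_⟩
      have : a = b := Subtype.ext hab
      rw [this]
  refine ⟨y, ?_, frac⟩
  have : Algebra.IsAlgebraic (Algebra.adjoin k (Set.range y)) K :=
    IsLocalization.isAlgebraic _ (nonZeroDivisors (Algebra.adjoin k (Set.range y)))
  have h2 : IsTranscendenceBasis k y := by
    apply Algebra.IsAlgebraic.isTranscendenceBasis_of_lift_le_trdeg_of_finite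
    rw [C.trdeg_eq]
    simp
  exact h2.1

theorem ofGen_x (y : Fin n → K) (h) : (C.ofGen y h).x = y := rfl

end Coord

end Pool.Agent.H968R2.FL
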