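import Mathlib

/-!
# Varieties with a fixed function field, global `F`-regularity, log resolutions, lifting of forms

A variety over `k` with function field `K` is described in the classical language of Zariski (see
Zariski-Samuel, Commutative Algebra II, Ch. VI, par. 17): its scheme theoretic points are
its local rings, which are subrings of `K`; it is covered by finitely many affine varieties
`Spec (chart i)`, with `chart i` a finitely generated `k`-subalgebra of `K` with fraction field `K`;
a birational morphism `Y → X` (inducing the identity on `K`) exists iff every local ring of `Y`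
dominates a local ring of `X`.
-/

open scoped KaehlerDifferential

noncomputable section

namespace Pool.Agent.H968R2.FL

universe u

variable {k K : Type u} [Field k] [Field K] [Algebra k K]

/-- The subring `A` of `K` is the localisation `R_P` of its subring `R` at the prime ideal `P`,
i.e. it consists of the fractions `a / s` with `a, s ∈ R`, `s ∉ P`. -/
def IsLocalizationAt (R : Subalgebra k K) (P : Ideal R) (A : Subalgebra k K) : Prop :=
  ∀ f : K, f ∈ A ↔ ∃ a s : R, s ∉ P ∧ f * (s : K) = (a : K)

/-- The local ring `B ⊆ K` dominates the local ring `A ⊆ K`: `A ⊆ B`, and an element of `A` which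
is a unit of `B` is a unit of `A`. -/
def Dominates (B A : Set K) : Prop := A ⊆ B ∧ ∀ a ∈ A, a⁻¹ ∈ B → a⁻¹ ∈ A

variable (k K) in
/-- A variety over `k` (an integral separated scheme of finite type over `k`) with function field
`K`, given by a finite cover by affine varieties `Spec (chart i)`. `separated`: a valuation ring of
`K` dominates at most one of the local rings of the charts. -/
structure Variety where
  /-- the index set of the cover -/
  ι : Type
  finite : Finite ι
  nonempty : Nonempty ι
  /-- the coordinate rings of the affine charts -/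
  chart : ι → Subalgebra k K
  fg : ∀ i, (chart i).FG
  frac : ∀ i, IsFractionRing (chart i) K
  separated : ∀ (V : ValuationSubring K) (i j : ι) (P : Ideal (chart i)) (Q : Ideal (chart j))
    (A B : Subalgebra k K), P.IsPrime → Q.IsPrime →
    IsLocalizationAt (chart i) P A → IsLocalizationAt (chart j) Q B →
    Dominates (V : Set K) A → Dominates (V : Set K) B → A = B

namespace Variety

/-- The (scheme theoretic) points of `X`, represented by their local rings. -/
def points (X : Variety k K) : Set (Subalgebra k K) :=
  {A | ∃ (i : X.ι) (P : Ideal (X.chart i)), P.IsPrime ∧ IsLocalizationAt (X.chart i) P A}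

/-- `X` is normal: its local rings are integrally closed. -/
def IsNormal (X : Variety k K) : Prop := ∀ A ∈ X.points, IsIntegrallyClosed A

/-- `X` is smooth over `k` at the point `A`. (The local rings of `X` are essentially of finite type
over `k`, so smoothness at the point is formal smoothness of the local ring.) -/
def SmoothAt (A : Subalgebra k K) : Prop := Algebra.FormallySmooth k A

/-- The prime divisors of the normal variety `X`, i.e. the points of codimension one: the points the
local ring of which is a discrete valuation ring. -/
structure PrimeDivisor (X : Variety k K) where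
  /-- the local ring -/
  ring : Subalgebra k K
  mem_points : ring ∈ X.points
  isDVR : IsDiscreteValuationRing ring

/-- For an effective Weil divisor `D = ∑ D(E) E` on the normal variety `X` and a point `A` of `X`,
the stalk of `O_X(D)` at `A`: all `f ∈ K` with `ord_E f ≥ - D(E)`, i.e. `t ^ D(E) * f ∈ O_{X,E}` for
all the nonunits `t` of `O_{X,E}`, for all the prime divisors `E` through `A` (which means
`A ⊆ O_{X,E}`). -/
def stalk (X : Variety k K) (D : X.PrimeDivisor → ℕ) (A : Subalgebra k K) : Set K :=
  {f | ∀ E : X.PrimeDivisor, A ≤ E.ring →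
    ∀ t : K, t ∈ E.ring → t⁻¹ ∉ E.ring → t ^ D E * f ∈ E.ring}

/-- The pair `(X, Δ)`, `X` a normal variety in characteristic `p` and `Δ` an effective `ℚ`-divisor
on `X`, is globally `F`-regular: for every effective Weil divisor `D` there is `e > 0` such that
`O_X → F^e_* O_X(⌈(p^e - 1) Δ⌉ + D)` splits as a map of `O_X`-modules.
An `O_X`-linear map `F^e_* O_X(D') → O_X` is the same as an additive map `φ : K → K` with
`φ (a ^ (p ^ e) * b) = a * φ b` for all `a, b ∈ K` (the induced map of the stalks at the generic
point) which maps the stalk of `O_X(D')` at every point into the local ring of the point. It is a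
splitting iff `φ 1 = 1`. -/
def GloballyFRegular (p : ℕ) (X : Variety k K) (Δ : X.PrimeDivisor →₀ ℚ) : Prop :=
  ∀ D : X.PrimeDivisor →₀ ℕ, ∃ e : ℕ, 0 < e ∧ ∃ φ : K →+ K,
    (∀ a b : K, φ (a ^ p ^ e * b) = a * φ b) ∧ φ 1 = 1 ∧
      ∀ A ∈ X.points, ∀ f ∈ X.stalk (fun E => ⌈((p : ℚ) ^ e - 1) * Δ E⌉₊ + D E) A, φ f ∈ A

/-- The identity of `K` is induced by a morphism `Y → X`: the local ring of each point of `Y`
dominates the local ring of a point of `X` (the image of the point of `Y`). -/
def IsMorphism (Y X : Variety k K) : Prop :=
  ∀ B ∈ Y.points, ∃ A ∈ X.points, Dominates (B : Set K) A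

/-- The (birational) morphism `Y → X` is proper, by the valuative criterion: every valuation ring
of `K` which dominates a local ring of `X` dominates a local ring of `Y`. -/
def IsProper (Y X : Variety k K) : Prop :=
  ∀ V : ValuationSubring K, (∃ A ∈ X.points, Dominates (V : Set K) A) →
    ∃ B ∈ Y.points, Dominates (V : Set K) B

/-- `z 1, ..., z d` is a regular system of parameters of the local ring `B`: the maximal ideal (the
set of the nonunits) of `B` is generated by them, and `d = dim B`. -/
def IsParameters (B : Subalgebra k K) (d : ℕ) (z : Fin d → B) : Prop :=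
  ringKrullDim B = d ∧ ∀ b : B, b ∈ Ideal.span (Set.range z) ↔ ¬ IsUnit b

/-- The set `S` of points of `Y` is a divisor with simple normal crossings in the regular variety `Y`:
each point `B` of `Y` has a regular system of parameters `z 1, ..., z d` such that locally at `B` the
set `S` is given by the equation `∏ i ∈ I, z i = 0` for some `I ⊆ {1, ..., d}`: a point `C` whose
closure contains `B` (i.e. `B ⊆ C`) is in `S` iff one of the `z i`, `i ∈ I`, is not a unit of `C`. -/
def IsSNC (Y : Variety k K) (S : Set (Subalgebra k K)) : Prop :=
  ∀ B ∈ Y.points, ∃ (d : ℕ) (z : Fin d → B) (I : Finset (Fin d)), IsParameters B d z ∧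
    ∀ C ∈ Y.points, B ≤ C → (C ∈ S ↔ ∃ i ∈ I, (z i : K)⁻¹ ∉ C)

/-- The exceptional locus of the birational morphism `Y → X` together with the strict transform of
the support of `Δ`. The morphism is a local isomorphism at the point `B` of `Y` iff `B` is a local
ring of `X`; `B` lies in the closure of the prime divisor `E` iff `B ⊆ E`. -/
def boundary (Y X : Variety k K) (Δ : X.PrimeDivisor →₀ ℚ) : Set (Subalgebra k K) :=
  {B | B ∈ Y.points ∧ (B ∉ X.points ∨ ∃ E : X.PrimeDivisor, Δ E ≠ 0 ∧ B ≤ E.ring)}

/-- `Y → X` is a log resolution of the pair `(X, Δ)`: it is a proper birational morphism, `Y` is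
smooth, and the exceptional locus is a divisor which together with the strict transform of `Δ`
has simple normal crossings. -/
def IsLogResolution (Y X : Variety k K) (Δ : X.PrimeDivisor →₀ ℚ) : Prop :=
  IsMorphism Y X ∧ IsProper Y X ∧ (∀ B ∈ Y.points, SmoothAt B) ∧
    IsSNC Y (boundary Y X 0) ∧ IsSNC Y (boundary Y X Δ)

/-- The rational `j`-form `da_1 ∧ ... ∧ da_j`, `a_i ∈ K`, in the exterior algebra of the `K`-vector
space `Ω_{K/k}` of the Kähler differentials. -/
def wedge (j : ℕ) (a : Fin j → K) : ExteriorAlgebra K Ω[K⁄k] :=
  ExteriorAlgebra.ιMulti K j fun i => KaehlerDifferential.D k K (a i)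

/-- `Ω^j_A`, for a local ring `A` (smooth over `k`) of a variety with function field `K`, inside the
exterior algebra of `Ω_{K/k}`: all the sums `∑ i, c_i da_{i1} ∧ ... ∧ da_{ij}` with `c_i ∈ A` and
`a_{il} ∈ A`. For `A = K` these are the rational `j`-forms. -/
def forms (j : ℕ) (A : Subalgebra k K) : Set (ExteriorAlgebra K Ω[K⁄k]) :=
  {ω | ∃ (n : ℕ) (c : Fin n → K) (a : Fin n → Fin j → K), (∀ i, c i ∈ A) ∧ (∀ i l, a i l ∈ A) ∧
    ω = ∑ i, c i • wedge j (a i)}

/-- `U` is (the set of the points of) an open subset of `X`: with every point `A` it contains all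
points of some principal open subset `g ≠ 0` of a chart `Spec (chart i)`, containing `A`. -/
def IsOpen (X : Variety k K) (U : Set (Subalgebra k K)) : Prop :=
  U ⊆ X.points ∧ ∀ A ∈ U, ∃ (i : X.ι) (g : K), g ∈ X.chart i ∧ g ≠ 0 ∧ X.chart i ≤ A ∧ g⁻¹ ∈ A ∧
    ∀ B ∈ X.points, X.chart i ≤ B → g⁻¹ ∈ B → B ∈ U

/-- Regular `j`-forms on `X` lift to regular `j`-forms on `Y`: for every open `U ⊆ X` and every
rational `j`-form `ω` which is regular on the smooth locus of `U`, the pull-back of `ω` (the form `ω`
itself) is regular at all points of `Y` lying over `U`. -/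
def FormsLift (j : ℕ) (Y X : Variety k K) : Prop :=
  ∀ U : Set (Subalgebra k K), X.IsOpen U → ∀ ω ∈ forms j (⊤ : Subalgebra k K),
    (∀ A ∈ U, SmoothAt A → ω ∈ forms j A) →
      ∀ A ∈ U, ∀ B ∈ Y.points, Dominates (B : Set K) A → ω ∈ forms j B

end Variety

end Pool.Agent.H968R2.FL
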