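import Mathlib

/-! Extension of `q`-inverse-linear maps to the fraction field. -/

noncomputable section

namespace Pool.Agent.H968R2.FL

theorem exists_extension {S K : Type*} [CommRing S] [IsDomain S] [Field K] [Algebra S K]
    [IsFractionRing S K] (q : ℕ) (hq : 1 ≤ q) (T : S →+ S) (hT : ∀ a b : S, T (a ^ q * b) = a * T b) :
    ∃ Φ : K →+ K, (∀ a b : K, Φ (a ^ q * b) = a * Φ b) ∧
      ∀ a b : S, b ≠ 0 → Φ (algebraMap S K a / algebraMap S K b) =
        algebraMap S K (T (a * b ^ (q - 1))) / algebraMap S K b := by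
  have hinj : Function.Injective (algebraMap S K) := IsFractionRing.injective S K
  have hne : ∀ b : S, b ≠ 0 → algebraMap S K b ≠ 0 := fun b hb h =>
    hb (hinj (by rw [h, map_zero]))
  obtain ⟨r, rfl⟩ : ∃ r, q = r + 1 := ⟨q - 1, by omega⟩
  simp only [Nat.add_sub_cancel]
  -- well-definedness
  have key : ∀ a b a' b' : S, b ≠ 0 → b' ≠ 0 → a * b' = a' * b →
      T (a * b ^ r) * b' = T (a' * b' ^ r) * b := by
    intro a b a' b' _ _ e
    calc T (a * b ^ r) * b' = T (b' ^ (r + 1) * (a * b ^ r)) := by rw [hT]; ring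
      _ = T (b ^ (r + 1) * (a' * b' ^ r)) := by
          congr 1
          calc b' ^ (r + 1) * (a * b ^ r) = b' ^ r * b ^ r * (a * b') := by ring
            _ = b' ^ r * b ^ r * (a' * b) := by rw [e]
            _ = b ^ (r + 1) * (a' * b' ^ r) := by ring
      _ = T (a' * b' ^ r) * b := by rw [hT]; ring
  choose num den hden hfrac using fun z : K => IsFractionRing.div_surjective (A := S) z
  have hden' : ∀ z, den z ≠ 0 := fun z => nonZeroDivisors.ne_zero (hden z)
  let F : K → K := fun z => algebraMap S K (T (num z * den z ^ r)) / algebraMap S K (den z)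
  have hF : ∀ a b : S, b ≠ 0 → F (algebraMap S K a / algebraMap S K b) =
      algebraMap S K (T (a * b ^ r)) / algebraMap S K b := by
    intro a b hb
    set z := algebraMap S K a / algebraMap S K b with hz
    have h1 : algebraMap S K (num z) / algebraMap S K (den z) = algebraMap S K a / algebraMap S K b :=
      (hfrac z).trans hz
    have h2 : num z * b = a * den z := by
      apply hinj
      rw [map_mul, map_mul]
      rwa [div_eq_div_iff (hne _ (hden' z)) (hne _ hb)] at h1
    have h3 := key (num z) (den z) a b (hden' z) hb h2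
    change algebraMap S K (T (num z * den z ^ r)) / algebraMap S K (den z) = _
    rw [div_eq_div_iff (hne _ (hden' z)) (hne _ hb), ← map_mul, ← map_mul, h3]
  have hadd : ∀ x y : K, F (x + y) = F x + F y := by
    intro x y
    obtain ⟨a, b, hb, rfl⟩ := IsFractionRing.div_surjective (A := S) x
    obtain ⟨a', b', hb', rfl⟩ := IsFractionRing.div_surjective (A := S) y
    have hb := nonZeroDivisors.ne_zero hb
    have hb' := nonZeroDivisors.ne_zero hb'
    have e1 : algebraMap S K a / algebraMap S K b = algebraMap S K (a * b') / algebraMap S K (b * b') := by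
      rw [div_eq_div_iff (hne _ hb) (hne _ (mul_ne_zero hb hb')), ← map_mul, ← map_mul]
      congr 1; ring
    have e2 : algebraMap S K a' / algebraMap S K b' =
        algebraMap S K (a' * b) / algebraMap S K (b * b') := by
      rw [div_eq_div_iff (hne _ hb') (hne _ (mul_ne_zero hb hb')), ← map_mul, ← map_mul]
      congr 1; ring
    rw [e1, e2, ← add_div, ← map_add, hF _ _ (mul_ne_zero hb hb'), hF _ _ (mul_ne_zero hb hb'),
      hF _ _ (mul_ne_zero hb hb'), ← add_div, ← map_add, ← map_add, ← add_mul]
  refine ⟨AddMonoidHom.mk' F hadd, ?_, hF⟩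
  intro x y
  change F _ = _ * F _
  obtain ⟨a, b, hb, rfl⟩ := IsFractionRing.div_surjective (A := S) x
  obtain ⟨a', b', hb', rfl⟩ := IsFractionRing.div_surjective (A := S) y
  have hb := nonZeroDivisors.ne_zero hb
  have hb' := nonZeroDivisors.ne_zero hb'
  have e1 : (algebraMap S K a / algebraMap S K b) ^ (r + 1) * (algebraMap S K a' / algebraMap S K b') =
      algebraMap S K (a ^ (r + 1) * a') / algebraMap S K (b ^ (r + 1) * b') := by
    rw [div_pow, ← map_pow, ← map_pow, map_mul, map_mul, div_mul_div_comm]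
  rw [e1, hF _ _ (mul_ne_zero (pow_ne_zero _ hb) hb'), hF _ _ hb', div_mul_div_comm,
    div_eq_div_iff (hne _ (mul_ne_zero (pow_ne_zero _ hb) hb'))
      (mul_ne_zero (hne _ hb) (hne _ hb')), ← map_mul, ← map_mul, ← map_mul, ← map_mul]
  congr 1
  have e2 : a ^ (r + 1) * a' * (b ^ (r + 1) * b') ^ r = (a * b ^ r) ^ (r + 1) * (a' * b' ^ r) := by
    ring
  rw [e2, hT]
  ring

end Pool.Agent.H968R2.FL
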