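import Mathlib

/-! The `q`-inverse-linear coefficient maps of a polynomial ring. -/

noncomputable section

namespace Pool.Agent.H968R2.FL

open MvPolynomial

variable {k : Type*} [Field k] {σ : Type*} (p : ℕ) [Fact p.Prime] [CharP k p] [PerfectRing k p]

/-- inverse of the `e`-th power of Frobenius -/
def fi (e : ℕ) : k ≃+* k := (iterateFrobeniusEquiv k p e).symm

theorem fi_pow (e : ℕ) (c : k) : fi p e (c ^ p ^ e) = c := by
  have : iterateFrobeniusEquiv k p e c = c ^ p ^ e := by
    rw [iterateFrobeniusEquiv_apply, iterateFrobenius_def]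
  rw [fi, ← this, RingEquiv.symm_apply_apply]

open Classical in
/-- the map `∑ c_e X^e ↦ ∑ c_{a + q d}^{1/q} X^d` -/
def tr (e : ℕ) (a : σ →₀ ℕ) (F : MvPolynomial σ k) : MvPolynomial σ k :=
  ∑ m ∈ F.support, if h : ∃ d : σ →₀ ℕ, m = a + p ^ e • d then
    monomial h.choose (fi p e (coeff m F)) else 0

theorem smul_inj {q : ℕ} (hq : q ≠ 0) {d d' : σ →₀ ℕ} (h : q • d = q • d') : d = d' := by
  ext i
  have := DFunLike.congr_fun h i
  simp only [Finsupp.smul_apply, smul_eq_mul] at this
  exact Nat.eq_of_mul_eq_mul_left (Nat.pos_of_ne_zero hq) this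

theorem coeff_tr (e : ℕ) (a : σ →₀ ℕ) (F : MvPolynomial σ k) (d : σ →₀ ℕ) :
    coeff d (tr p e a F) = fi p e (coeff (a + p ^ e • d) F) := by
  classical
  have hq : p ^ e ≠ 0 := pow_ne_zero _ (Fact.out : p.Prime).ne_zero
  rw [tr, coeff_sum]
  have : ∀ m ∈ F.support, coeff d (if h : ∃ d : σ →₀ ℕ, m = a + p ^ e • d then
      monomial h.choose (fi p e (coeff m F)) else 0) =
      if m = a + p ^ e • d then fi p e (coeff m F) else 0 := by
    intro m _
    by_cases h : ∃ d : σ →₀ ℕ, m = a + p ^ e • d
    · rw [dif_pos h, coeff_monomial]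
      by_cases h2 : m = a + p ^ e • d
      · rw [if_pos h2, if_pos]
        exact smul_inj hq (add_left_cancel (h.choose_spec.symm.trans h2))
      · rw [if_neg h2, if_neg]
        rintro rfl
        exact h2 h.choose_spec
    · rw [dif_neg h, coeff_zero, if_neg]
      rintro rfl
      exact h ⟨d, rfl⟩
  rw [Finset.sum_congr rfl this, Finset.sum_ite_eq']
  split_ifs with h
  · rfl
  · rw [notMem_support_iff.1 h, map_zero]

theorem tr_add (e : ℕ) (a : σ →₀ ℕ) (F G : MvPolynomial σ k) :
    tr p e a (F + G) = tr p e a F + tr p e a G := by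
  ext d
  simp only [coeff_tr, coeff_add, map_add]

/-- the map as a homomorphism of groups -/
def trHom (e : ℕ) (a : σ →₀ ℕ) : MvPolynomial σ k →+ MvPolynomial σ k :=
  AddMonoidHom.mk' (tr p e a) (tr_add p e a)

theorem tr_monomial (e : ℕ) (a : σ →₀ ℕ) (ha : ∀ i, a i < p ^ e) (u v : σ →₀ ℕ) (c b : k) :
    tr p e a ((monomial u c) ^ p ^ e * monomial v b) = monomial u c * tr p e a (monomial v b) := by
  classical
  have hq : p ^ e ≠ 0 := pow_ne_zero _ (Fact.out : p.Prime).ne_zero
  ext d
  rw [coeff_tr, monomial_pow, monomial_mul, coeff_monomial, coeff_monomial_mul']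
  by_cases h : p ^ e • u + v = a + p ^ e • d
  · rw [if_pos h]
    have hle : u ≤ d := by
      intro i
      have hi := DFunLike.congr_fun h i
      simp only [Finsupp.add_apply, Finsupp.smul_apply, smul_eq_mul] at hi
      by_contra hlt
      push Not at hlt
      have h1 : p ^ e * (d i + 1) ≤ p ^ e * u i := Nat.mul_le_mul_left _ hlt
      have := ha i
      rw [mul_add, mul_one] at h1
      omega
    rw [if_pos hle, coeff_tr, coeff_monomial, if_pos, map_mul, fi_pow]
    obtain ⟨w, rfl⟩ := exists_add_of_le hle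
    rw [add_tsub_cancel_left]
    rw [smul_add] at h
    have h2 : p ^ e • u + v = p ^ e • u + (a + p ^ e • w) := by rw [h]; abel
    exact add_left_cancel h2
  · rw [if_neg h, map_zero]
    by_cases hle : u ≤ d
    · rw [if_pos hle, coeff_tr, coeff_monomial, if_neg, map_zero, mul_zero]
      rintro rfl
      apply h
      obtain ⟨w, rfl⟩ := exists_add_of_le hle
      rw [add_tsub_cancel_left, smul_add]
      abel
    · rw [if_neg hle]

theorem tr_mul (e : ℕ) (a : σ →₀ ℕ) (ha : ∀ i, a i < p ^ e) (F G : MvPolynomial σ k) :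
    tr p e a (F ^ p ^ e * G) = F * tr p e a G := by
  have hadd : ∀ F G : MvPolynomial σ k, (F + G) ^ p ^ e = F ^ p ^ e + G ^ p ^ e := by
    intro F G
    exact add_pow_char_pow _ _ _ _
  induction F using MvPolynomial.induction_on' with
  | add F₁ F₂ h1 h2 =>
    rw [hadd, add_mul, add_mul, tr_add, h1, h2]
  | monomial u c =>
    induction G using MvPolynomial.induction_on' with
    | add G₁ G₂ h1 h2 => rw [mul_add, tr_add, h1, h2, tr_add, mul_add]
    | monomial v b => exact tr_monomial p e a ha u v c b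

end Pool.Agent.H968R2.FL
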