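import Pool.Agent.H968R2.FL.RProps
import Pool.Agent.H968R2.FL.Frob
import Pool.Agent.H968R2.FL.Trace

/-! The cone is globally `F`-regular. -/

noncomputable section

namespace Pool.Agent.H968R2.FL

open MvPolynomial

universe u

variable {k K : Type u} [Field k] [Field K] [Algebra k K] {m : ℕ}

/-- an affine variety -/
def affine (R : Subalgebra k K) (fg : R.FG) (frac : IsFractionRing R K) : Variety k K where
  ι := Unit
  finite := inferInstance
  nonempty := inferInstance
  chart := fun _ => R
  fg := fun _ => fg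
  frac := fun _ => frac
  separated := by
    intro V _ _ P Q A B hP hQ hA hB hVA hVB
    rw [hA.eq] at hVA ⊢
    rw [hB.eq] at hVB ⊢
    exact locAt_eq_of_dominates P Q hVA hVB

theorem mem_affine_points {R : Subalgebra k K} {fg : R.FG} {frac : IsFractionRing R K}
    {A : Subalgebra k K} : A ∈ (affine R fg frac).points ↔
      ∃ (P : Ideal R) (_ : P.IsPrime), A = locAt R P := by
  constructor
  · rintro ⟨i, P, hP, hA⟩
    exact ⟨P, hP, hA.eq⟩
  · rintro ⟨P, hP, rfl⟩
    exact ⟨(), P, hP, isLocalizationAt_locAt R P⟩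

theorem affine_isNormal {R : Subalgebra k K} {fg : R.FG} {frac : IsFractionRing R K}
    [IsIntegrallyClosed R] : (affine R fg frac).IsNormal := by
  intro A hA
  obtain ⟨P, hP, rfl⟩ := mem_affine_points.1 hA
  exact isIntegrallyClosed_of_isLocalization (R := R) _ P.primeCompl P.primeCompl_le_nonZeroDivisors

/-- a nonzero element vanishing on the effective divisor `D` -/
theorem exists_section {R : Subalgebra k K} {fg : R.FG} {frac : IsFractionRing R K}
    (D : (affine R fg frac).PrimeDivisor →₀ ℕ) :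
    ∃ c : R, c ≠ 0 ∧ ∀ E : (affine R fg frac).PrimeDivisor,
      ∃ t u : K, t ∈ E.ring ∧ t⁻¹ ∉ E.ring ∧ u ∈ E.ring ∧ (c : K) = t ^ D E * u := by
  have hex : ∀ E : (affine R fg frac).PrimeDivisor, ∃ c : R, c ≠ 0 ∧
      (c : K) ∈ E.ring ∧ (c : K)⁻¹ ∉ E.ring := by
    rintro ⟨A, hA, hdvr⟩
    obtain ⟨P, hP, rfl⟩ := mem_affine_points.1 hA
    have hPne : P ≠ ⊥ := by
      intro h0
      have hf : IsField (locAt R P) := by
        refine ⟨⟨0, 1, ?_⟩, fun a b => mul_comm a b, ?_⟩
        · intro h
          exact zero_ne_one (congrArg (fun z : locAt R P => (z : K)) h)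
        · intro a ha
          obtain ⟨b, s, hs, e⟩ := a.2
          have ha0 : (a : K) ≠ 0 := fun h => ha (Subtype.ext h)
          have hs0 := ne_zero_of_notMem hs
          have hb : b ∉ P := by
            rw [h0]
            intro hb
            have hb' : (b : K) = 0 := by
              rw [(Submodule.mem_bot R).1 hb]; rfl
            rw [hb'] at e
            exact mul_ne_zero ha0 hs0 e
          refine ⟨⟨(a : K)⁻¹, s, b, hb, ?_⟩, Subtype.ext (mul_inv_cancel₀ ha0)⟩
          rw [← e]
          field_simp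
      exact IsDiscreteValuationRing.not_isField _ hf
    obtain ⟨c, hc, hc0⟩ := Submodule.exists_mem_ne_zero_of_ne_bot hPne
    exact ⟨c, hc0, le_locAt R P c.2, (mem_primeIdeal_iff c hc0).1 hc⟩
  choose c hc0 hc1 hc2 using hex
  have hle : ∀ (E : (affine R fg frac).PrimeDivisor) (F : R), (F : K) ∈ E.ring := by
    intro E F
    obtain ⟨P, hP, he⟩ := mem_affine_points.1 E.mem_points
    rw [he]
    exact le_locAt R P F.2
  refine ⟨∏ E ∈ D.support, c E ^ D E, ?_, ?_⟩
  · exact Finset.prod_ne_zero_iff.2 fun E _ => pow_ne_zero _ (hc0 E)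
  · intro E
    by_cases hE : E ∈ D.support
    · classical
      refine ⟨c E, ((∏ F ∈ D.support.erase E, c F ^ D F : R) : K), hc1 E, hc2 E, hle E _, ?_⟩
      rw [← Finset.mul_prod_erase _ _ hE]
      push_cast
      rfl
    · refine ⟨c E, ((∏ F ∈ D.support, c F ^ D F : R) : K), hc1 E, hc2 E, hle E _, ?_⟩
      rw [Finsupp.notMem_support_iff.1 hE, pow_zero, one_mul]

namespace Coord

variable (C : Coord k K (m + 2)) (p : ℕ)

/-- the cone over the rational normal curve of degree `p`, times affine `m`-space -/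
def cone (hp : 1 ≤ p) : Variety k K := affine (C.R p) (C.fg_R p) (C.frac_R p hp)

theorem globallyFRegular [Fact p.Prime] [CharP k p] [PerfectRing k p] (hp : 1 ≤ p) :
    (C.cone p hp).GloballyFRegular p 0 := by
  intro D
  obtain ⟨c, hc0, hc⟩ := exists_section D
  obtain ⟨G, hG⟩ := C.exists_ev (C.R_le p c.2)
  have hG0 : G ≠ 0 := by
    rintro rfl
    apply hc0
    apply Subtype.ext
    rw [← hG, map_zero]
    rfl
  obtain ⟨a, ha⟩ := support_nonempty.2 hG0
  -- choice of `e`
  obtain ⟨N, hN⟩ : ∃ N : ℕ, ∀ u ∈ G.support, ∀ i, p * u i ≤ N :=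
    ⟨G.support.sup fun u => Finset.univ.sup fun i => p * u i, fun u hu i =>
      (Finset.le_sup (f := fun i => p * u i) (Finset.mem_univ i)).trans
        (Finset.le_sup (f := fun u : Fin (m + 2) →₀ ℕ => Finset.univ.sup fun i => p * u i) hu)⟩
  have hp2 : 2 ≤ p := (Fact.out : p.Prime).two_le
  have hq : N + 1 < p ^ (N + 1) := Nat.lt_pow_self (by omega)
  set e := N + 1 with he
  set q := p ^ e with hqdef
  have hq0 : q ≠ 0 := by omega
  have hlt : ∀ u ∈ G.support, ∀ i, p * u i < q := fun u hu i => by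
    have := hN u hu i
    omega
  have hlt' : ∀ u ∈ G.support, ∀ i, u i < q := fun u hu i =>
    lt_of_le_of_lt (Nat.le_mul_of_pos_left _ (by omega)) (hlt u hu i)
  -- the map on the polynomial ring
  let T : C.ring →+ C.ring :=
    (C.equiv.toRingEquiv.toAddEquiv.toAddMonoidHom).comp
      ((trHom p e a).comp C.equiv.symm.toRingEquiv.toAddEquiv.toAddMonoidHom)
  have hTapp : ∀ F : MvPolynomial (Fin (m + 2)) k, ((T (C.equiv F) : C.ring) : K) =
      C.ev (tr p e a F) := by
    intro F
    change ((C.equiv (tr p e a (C.equiv.symm (C.equiv F))) : C.ring) : K) = _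
    rw [AlgEquiv.symm_apply_apply, equiv_coe]
  have hTmul : ∀ x y : C.ring, T (x ^ q * y) = x * T y := by
    intro x y
    obtain ⟨F, rfl⟩ := C.equiv.surjective x
    obtain ⟨H, rfl⟩ := C.equiv.surjective y
    apply Subtype.ext
    rw [← map_pow, ← map_mul, hTapp, tr_mul p e a (hlt' a ha), map_mul]
    push_cast
    rw [hTapp, equiv_coe]
  have hTR : ∀ x : C.ring, (x : K) ∈ C.R p → ((T x : C.ring) : K) ∈ C.R p := by
    intro x hx
    obtain ⟨F, rfl⟩ := C.equiv.surjective x
    rw [hTapp]
    rw [equiv_coe, mem_R_iff] at hx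
    rw [mem_R_iff]
    intro d hd
    have h1 : coeff (a + p ^ e • d) F ≠ 0 := by
      intro h0
      rw [mem_support_iff, coeff_tr, h0, map_zero] at hd
      exact hd rfl
    have h2 := hx _ (mem_support_iff.2 h1)
    simp only [Finsupp.add_apply, Finsupp.smul_apply, smul_eq_mul] at h2
    rw [← hqdef] at h2
    have h3 := hlt a ha 1
    by_contra hcon
    push Not at hcon
    have h4 : q * (p * d 1 + 1) ≤ q * d 0 := Nat.mul_le_mul_left _ hcon
    have h5 : q * (p * d 1 + 1) = p * (q * d 1) + q := by ring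
    rw [mul_add] at h2
    omega
  obtain ⟨Φ, hΦ, hΦ'⟩ := exists_extension (K := K) q (by omega) T hTmul
  have hΦT : ∀ x : C.ring, Φ (x : K) = ((T x : C.ring) : K) := by
    intro x
    have := hΦ' x 1 one_ne_zero
    simpa using this
  -- scaling
  have hca : coeff a G ≠ 0 := mem_support_iff.1 ha
  let l : K := algebraMap k K (coeff a G)⁻¹
  have hone : Φ (l * (c : K) * 1) = 1 := by
    have h1 : l * (c : K) * 1 = ((C.equiv (MvPolynomial.C (coeff a G)⁻¹ * G) : C.ring) : K) := by
      rw [equiv_coe, map_mul, hG, mul_one]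
      congr 1
      rw [ev, aeval_C]
    rw [h1, hΦT, hTapp]
    have h2 : tr p e a (MvPolynomial.C (coeff a G)⁻¹ * G) = 1 := by
      ext d
      rw [coeff_tr, coeff_C_mul, coeff_one]
      by_cases hd : 0 = d
      · subst hd
        rw [if_pos rfl, smul_zero, add_zero, inv_mul_cancel₀ hca, map_one]
      · rw [if_neg hd]
        have : coeff (a + p ^ e • d) G = 0 := by
          rw [← notMem_support_iff]
          intro hmem
          apply hd
          ext i
          have h3 := hlt' _ hmem i
          simp only [Finsupp.add_apply, Finsupp.smul_apply, smul_eq_mul] at h3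
          rw [← hqdef] at h3
          by_contra hne
          have h4 : 1 ≤ d i := Nat.one_le_iff_ne_zero.2 (fun h => hne (by rw [h]; rfl))
          have h5 : q * 1 ≤ q * d i := Nat.mul_le_mul_left _ h4
          omega
        rw [this, mul_zero, map_zero]
    rw [h2, map_one]
  refine ⟨e, Nat.succ_pos _, Φ.comp (AddMonoidHom.mulLeft (l * (c : K))), ?_, hone, ?_⟩
  · intro x y
    change Φ (l * (c : K) * (x ^ q * y)) = x * Φ (l * (c : K) * y)
    rw [← hΦ]
    congr 1
    ring
  · intro A hA f hf
    obtain ⟨P, hP, rfl⟩ := mem_affine_points.1 hA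
    change Φ (l * (c : K) * f) ∈ _
    have := C.noetherian_R p
    have := C.integrallyClosed_R p hp
    have := C.frac_R p hp
    have hcf : (c : K) * f ∈ locAt (C.R p) P := by
      apply mem_locAt_of_forall_dvr
      intro Q hQ hQP hdvr
      let E : (C.cone p hp).PrimeDivisor :=
        ⟨locAt (C.R p) Q, mem_affine_points.2 ⟨Q, hQ, rfl⟩, hdvr⟩
      have hle : locAt (C.R p) P ≤ locAt (C.R p) Q := by
        rintro x ⟨a, s, hs, e⟩
        exact ⟨a, s, fun hh => hs (hQP hh), e⟩
      obtain ⟨t, u, ht, ht', hu, hc'⟩ := hc E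
      have h3 : ⌈((p : ℚ) ^ e - 1) * (0 : (C.cone p hp).PrimeDivisor →₀ ℚ) E⌉₊ + D E = D E := by
        simp
      have h1 := hf E hle t ht ht'
      simp only [h3] at h1
      have h2 : (c : K) * f = u * (t ^ D E * f) := by
        have h4 : ∀ a : K, a * u * f = u * (a * f) := fun a => by ring
        rw [hc']
        exact h4 _
      rw [h2]
      exact (locAt (C.R p) Q).mul_mem hu h1
    obtain ⟨r, s, hs, e'⟩ := hcf
    have hs0 := ne_zero_of_notMem hs
    have hl : ∀ x ∈ C.R p, l * x ∈ C.R p := fun x hx =>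
      (C.R p).mul_mem ((C.R p).algebraMap_mem _) hx
    have h1 : l * (c : K) * f = (l * (r : K)) / (s : K) := by
      rw [← e']
      field_simp
    let r' : C.ring := ⟨l * (r : K), C.R_le p (hl _ r.2)⟩
    let s' : C.ring := ⟨(s : K), C.R_le p s.2⟩
    have hs' : s' ≠ 0 := fun h => hs0 (congrArg (fun z : C.ring => (z : K)) h)
    have h2 := hΦ' r' s' hs'
    have h3 : l * (c : K) * f = algebraMap C.ring K r' / algebraMap C.ring K s' := h1
    rw [h3, h2]
    have h4 : ((T (r' * s' ^ (q - 1)) : C.ring) : K) ∈ C.R p := by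
      apply hTR
      change (l * (r : K)) * (s : K) ^ (q - 1) ∈ C.R p
      exact (C.R p).mul_mem (hl _ r.2) ((C.R p).pow_mem s.2 _)
    rw [div_eq_mul_inv]
    exact (locAt (C.R p) P).mul_mem (le_locAt _ _ h4) (inv_mem_locAt hs)

end Coord

end Pool.Agent.H968R2.FL
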