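import Pool.Agent.H968R2.FL.Res

/-! The exceptional divisor of the resolution is smooth. -/

noncomputable section

namespace Pool.Agent.H968R2.FL

open MvPolynomial

universe u

variable {k K : Type u} [Field k] [Field K] [Algebra k K]

namespace Coord

section

variable {n : ℕ} (C : Coord k K n)

/-- partial derivatives on the polynomial ring -/
def pd (i : Fin n) (f : C.ring) : C.ring := C.equiv (pderiv i (C.equiv.symm f))

theorem pd_add (i : Fin n) (f g : C.ring) : C.pd i (f + g) = C.pd i f + C.pd i g := by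
  simp [pd]

theorem pd_mul (i : Fin n) (f g : C.ring) : C.pd i (f * g) = f * C.pd i g + g * C.pd i f := by
  simp only [pd, map_mul, Derivation.leibniz, smul_eq_mul, map_add, AlgEquiv.apply_symm_apply]

theorem pd_x (i j : Fin n) : C.pd i ⟨C.x j, C.x_mem j⟩ = if i = j then 1 else 0 := by
  classical
  have : C.equiv.symm ⟨C.x j, C.x_mem j⟩ = X j := by
    rw [AlgEquiv.symm_apply_eq]
    apply Subtype.ext
    rw [equiv_coe, ev_X]
  rw [pd, this, pderiv_X]
  by_cases h : i = j
  · subst h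
    simp
  · rw [if_neg h, Pi.single_eq_of_ne (Ne.symm h), map_zero]

theorem pd_mem (i : Fin n) (P : Ideal C.ring) (f : C.ring) (hf : f ∈ P ^ 2) : C.pd i f ∈ P := by
  rw [pow_two] at hf
  refine Submodule.mul_induction_on hf (fun a ha b hb => ?_) (fun x y hx hy => ?_)
  · rw [pd_mul]
    exact P.add_mem (P.mul_mem_right _ ha) (P.mul_mem_right _ hb)
  · rw [pd_add]
    exact P.add_mem hx hy

theorem x_notMem_sq (i : Fin n) (P : Ideal C.ring) [hP : P.IsPrime] (h : (⟨C.x i, C.x_mem i⟩ : C.ring) ∈ P) :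
    algebraMap C.ring (locAt C.ring P) ⟨C.x i, C.x_mem i⟩ ∉
      IsLocalRing.maximalIdeal (locAt C.ring P) ^ 2 := by
  intro h2
  rw [← IsLocalization.AtPrime.map_eq_maximalIdeal P (locAt C.ring P), ← Ideal.map_pow,
    IsLocalization.mem_map_algebraMap_iff P.primeCompl (locAt C.ring P)] at h2
  obtain ⟨⟨a, s⟩, e⟩ := h2
  have e' : (⟨C.x i, C.x_mem i⟩ : C.ring) * (s : C.ring) = (a : C.ring) := by
    apply Subtype.ext
    exact congrArg (fun z : locAt C.ring P => (z : K)) e
  have h3 := C.pd_mem i P _ a.2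
  rw [← e', pd_mul, pd_x, if_pos rfl, mul_one] at h3
  have h4 : (s : C.ring) ∈ P := by
    have := P.sub_mem h3 (P.mul_mem_right (C.pd i s) h)
    simpa using this
  exact s.2 h4

end

variable {m : ℕ} (C : Coord k K (m + 2)) (p : ℕ)

theorem snc_chart (S : Set (Subalgebra k K))
    (hS : ∀ A ∈ (C.reso p).points, C.x 0 ∈ A → (A ∈ S ↔ (C.x 1)⁻¹ ∉ A)) (P : Ideal C.ring)
    [hP : P.IsPrime] :
    ∃ (d : ℕ) (z : Fin d → locAt C.ring P) (I : Finset (Fin d)),
      Variety.IsParameters (locAt C.ring P) d z ∧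
      ∀ A ∈ (C.reso p).points, locAt C.ring P ≤ A →
        (A ∈ S ↔ ∃ i ∈ I, (z i : K)⁻¹ ∉ A) := by
  have hreg : IsRegularLocalRing (locAt C.ring P) :=
    IsRegularLocalRing.of_ringEquiv
      (IsLocalization.algEquiv P.primeCompl (Localization.AtPrime P) (locAt C.ring P)).toRingEquiv
  have hx0 : C.x 0 ∈ locAt C.ring P := le_locAt _ _ (C.x_mem 0)
  by_cases h : (⟨C.x 1, C.x_mem 1⟩ : C.ring) ∈ P
  · obtain ⟨d, z, i₀, h1, h2, h3⟩ := exists_param_of_mem
      (algebraMap C.ring (locAt C.ring P) ⟨C.x 1, C.x_mem 1⟩)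
      (by
        rw [← IsLocalization.AtPrime.map_eq_maximalIdeal P (locAt C.ring P)]
        exact Ideal.mem_map_of_mem _ h)
      (C.x_notMem_sq 1 P h)
    refine ⟨d, z, {i₀}, ⟨h1, fun b => by rw [h2, IsLocalRing.mem_maximalIdeal]; rfl⟩, ?_⟩
    intro A hA hle
    rw [hS A hA (hle hx0)]
    simp only [Finset.mem_singleton, exists_eq_left, h3]
    rfl
  · obtain ⟨d, z, h1, h2⟩ := exists_param (B := locAt C.ring P)
    refine ⟨d, z, ∅, ⟨h1, fun b => by rw [h2, IsLocalRing.mem_maximalIdeal]; rfl⟩, ?_⟩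
    intro A hA hle
    rw [hS A hA (hle hx0)]
    simp only [Finset.notMem_empty, false_and, exists_false, iff_false, not_not]
    exact hle (inv_mem_locAt h)

theorem snc (hp : 1 ≤ p) :
    Variety.IsSNC (C.reso p) (Variety.boundary (C.reso p) (C.cone p hp) 0) := by
  have key : ∀ C : Coord k K (m + 2), ∀ A ∈ (C.reso p).points, C.x 0 ∈ A →
      (A ∈ Variety.boundary (C.reso p) (C.cone p hp) 0 ↔ (C.x 1)⁻¹ ∉ A) := by
    intro C A hA h0
    constructor
    · rintro ⟨-, h | ⟨E, hE, -⟩⟩ h1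
      · exact h (C.mem_X_points_of_inv p hp hA h1)
      · exact hE rfl
    · intro h1
      exact ⟨hA, Or.inl (C.notMem_X_points p hp hA h0 h1)⟩
  intro B hB
  rcases (C.mem_Y_points p).1 hB with ⟨P, hP, rfl⟩ | ⟨P, hP, rfl⟩
  · exact C.snc_chart p _ (key C) P
  · have h := (C.twist p).snc_chart p (Variety.boundary (C.reso p) (C.cone p hp) 0) (by
      intro A hA h0
      rw [← key (C.twist p) A hA h0]
      constructor
      · rintro ⟨h1, h | ⟨E, hE, -⟩⟩
        · refine ⟨by rwa [twist_Y_points], Or.inl ?_⟩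
          rwa [twist_X_points]
        · exact absurd rfl hE
      · rintro ⟨h1, h | ⟨E, hE, -⟩⟩
        · refine ⟨by rwa [twist_Y_points] at h1, Or.inl ?_⟩
          rwa [twist_X_points] at h
        · exact absurd rfl hE) P
    obtain ⟨d, z, I, h1, h3⟩ := h
    refine ⟨d, z, I, h1, fun A hA hle => h3 A ?_ hle⟩
    rwa [twist_Y_points]

theorem isLogResolution (hp : 1 ≤ p) :
    Variety.IsLogResolution (C.reso p) (C.cone p hp) 0 :=
  ⟨C.isMorphism p hp, C.isProper p hp, C.smooth_Y p, C.snc p hp, C.snc p hp⟩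

end Coord

end Pool.Agent.H968R2.FL
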