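import Pool.Agent.H968R2.FL.NonSmooth
import Pool.Agent.H968R2.FL.Snc

/-! The form which does not lift. -/

noncomputable section

namespace Pool.Agent.H968R2.FL

open MvPolynomial KaehlerDifferential

universe u

set_option maxHeartbeats 400000

variable {k K : Type u} [Field k] [Field K] [Algebra k K]

theorem exists_functional_aux {k S K : Type u} [Field k] [CommRing S] [Field K] [Algebra k S]
    [Algebra k K] [Algebra S K] [IsScalarTower k S K] (M : Submonoid S) [IsLocalization M K]
    (d : Derivation k S K) :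
    ∃ L : Ω[K⁄k] →ₗ[K] K, ∀ a : S, L (D k K (algebraMap S K a)) = d a := by
  have hunit : ∀ x : M, IsUnit (algebraMap S (Module.End S K) x) := by
    intro x
    rw [Module.End.isUnit_iff]
    have hx : algebraMap S K (x : S) ≠ 0 := (IsLocalization.map_units K x).ne_zero
    constructor
    · intro a b hab
      change (x : S) • a = (x : S) • b at hab
      rw [Algebra.smul_def, Algebra.smul_def] at hab
      exact mul_left_cancel₀ hx hab
    · intro b
      refine ⟨(algebraMap S K (x : S))⁻¹ * b, ?_⟩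
      change (x : S) • ((algebraMap S K (x : S))⁻¹ * b) = b
      rw [Algebra.smul_def, mul_inv_cancel_left₀ hx b]
  refine ⟨LinearMap.extendScalarsOfIsLocalization M K
    (IsLocalizedModule.lift M (KaehlerDifferential.map k k S K) d.liftKaehlerDifferential hunit), ?_⟩
  intro a
  rw [← KaehlerDifferential.map_D k k S K a]
  change IsLocalizedModule.lift M (KaehlerDifferential.map k k S K) d.liftKaehlerDifferential hunit
    (KaehlerDifferential.map k k S K (D k S a)) = d a
  rw [IsLocalizedModule.lift_apply]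
  exact Derivation.liftKaehlerDifferential_comp_D _ _

theorem forms_mono {j : ℕ} {A B : Subalgebra k K} (h : A ≤ B) {ω : ExteriorAlgebra K Ω[K⁄k]}
    (hω : ω ∈ Variety.forms j A) : ω ∈ Variety.forms j B := by
  obtain ⟨n, c, a, hc, ha, rfl⟩ := hω
  exact ⟨n, c, a, fun i => h (hc i), fun i l => h (ha i l), rfl⟩

theorem smul_wedge_mem {j : ℕ} {A : Subalgebra k K} {c : K} {a : Fin j → K} (hc : c ∈ A)
    (ha : ∀ l, a l ∈ A) : c • Variety.wedge (k := k) j a ∈ Variety.forms j A :=
  ⟨1, fun _ => c, fun _ => a, fun _ => hc, fun _ l => ha l, by simp⟩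

/-- the value of an alternating map in terms of linear functionals which are integral on `A` -/
theorem det_mem {n : ℕ} (A : Subalgebra k K) (M : Matrix (Fin n) (Fin n) K)
    (h : ∀ i j, M i j ∈ A) : M.det ∈ A := by
  rw [Matrix.det_apply]
  refine Subalgebra.sum_mem _ fun σ _ => ?_
  have h1 : ∏ i, M (σ i) i ∈ A := Subalgebra.prod_mem _ fun i _ => h _ _
  rcases Int.units_eq_one_or (Equiv.Perm.sign σ) with h2 | h2
  · rw [h2, one_smul]
    exact h1
  · rw [h2, Units.smul_def]
    simpa using h1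

/-- the functional on the exterior algebra given by the determinant of linear functionals -/
def detFnl {j : ℕ} (L : Fin j → (Ω[K⁄k] →ₗ[K] K)) : ExteriorAlgebra K Ω[K⁄k] →ₗ[K] K :=
  ExteriorAlgebra.liftAlternating (Pi.single (M := fun i => Ω[K⁄k] [⋀^Fin i]→ₗ[K] K) j
    ((Matrix.detRowAlternating (n := Fin j) (R := K)).compLinearMap (LinearMap.pi L)))

theorem detFnl_wedge {j : ℕ} (L : Fin j → (Ω[K⁄k] →ₗ[K] K)) (a : Fin j → K) :
    detFnl L (Variety.wedge j a) = Matrix.det (fun i i' => L i' (D k K (a i))) := by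
  rw [detFnl, Variety.wedge, ExteriorAlgebra.liftAlternating_apply_ιMulti, Pi.single_eq_same]
  rfl

theorem alt_mem {j : ℕ} (A : Subalgebra k K) (L : Fin j → (Ω[K⁄k] →ₗ[K] K))
    (hL : ∀ (i : Fin j) (a : K), a ∈ A → L i (D k K a) ∈ A) {ω : ExteriorAlgebra K Ω[K⁄k]}
    (hω : ω ∈ Variety.forms j A) : detFnl L ω ∈ A := by
  obtain ⟨n, c, a, hc, ha, rfl⟩ := hω
  rw [map_sum]
  refine Subalgebra.sum_mem _ fun i _ => ?_
  rw [map_smul, detFnl_wedge]
  exact A.mul_mem (hc i) (det_mem A _ fun l l' => hL l' _ (ha i l))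

namespace Coord

section

variable {n : ℕ} (C : Coord k K n)

/-- the partial derivative as a derivation of the polynomial ring with values in the field -/
def der (i : Fin n) : Derivation k C.ring K :=
  Derivation.mk' (C.ev.toLinearMap ∘ₗ (pderiv i).toLinearMap ∘ₗ C.equiv.symm.toLinearMap) (by
    intro a b
    change C.ev (pderiv i (C.equiv.symm (a * b))) = (a : K) * C.ev (pderiv i (C.equiv.symm b)) +
      (b : K) * C.ev (pderiv i (C.equiv.symm a))
    obtain ⟨F, rfl⟩ := C.equiv.surjective a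
    obtain ⟨G, rfl⟩ := C.equiv.surjective b
    rw [← map_mul, AlgEquiv.symm_apply_apply, AlgEquiv.symm_apply_apply, AlgEquiv.symm_apply_apply,
      C.equiv_coe, C.equiv_coe, Derivation.leibniz, map_add, smul_eq_mul, smul_eq_mul, map_mul,
      map_mul])

theorem der_equiv (i : Fin n) (F : MvPolynomial (Fin n) k) :
    C.der i (C.equiv F) = C.ev (pderiv i F) := by
  change C.ev (pderiv i (C.equiv.symm (C.equiv F))) = _
  rw [AlgEquiv.symm_apply_apply]

theorem exists_functional (i : Fin n) : ∃ L : Ω[K⁄k] →ₗ[K] K,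
    ∀ F : MvPolynomial (Fin n) k, L (D k K (C.ev F)) = C.ev (pderiv i F) := by
  obtain ⟨L, hL⟩ := exists_functional_aux (nonZeroDivisors C.ring) (C.der i)
  refine ⟨L, fun F => ?_⟩
  have h1 := hL (C.equiv F)
  rw [der_equiv] at h1
  rw [← h1]
  congr 2

/-- the functional on the differentials dual to `d x_i` -/
def fnl (i : Fin n) : Ω[K⁄k] →ₗ[K] K := (C.exists_functional i).choose

theorem fnl_D (i : Fin n) (F : MvPolynomial (Fin n) k) :
    C.fnl i (D k K (C.ev F)) = C.ev (pderiv i F) := (C.exists_functional i).choose_spec F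

theorem fnl_D_x (i j : Fin n) : C.fnl i (D k K (C.x j)) = if i = j then 1 else 0 := by
  rw [← C.ev_X, fnl_D]
  by_cases h : i = j
  · subst h
    rw [pderiv_X_self, map_one, if_pos rfl]
  · rw [pderiv_X_of_ne (Ne.symm h), map_zero, if_neg h]

theorem fnl_mem (i : Fin n) (P : Ideal C.ring) [hP : P.IsPrime] (f : K) (hf : f ∈ locAt C.ring P) :
    C.fnl i (D k K f) ∈ locAt C.ring P := by
  obtain ⟨a, s, hs, e⟩ := id hf
  have h1 : ∀ b : C.ring, C.fnl i (D k K (b : K)) ∈ locAt C.ring P := by
    intro b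
    obtain ⟨F, hF⟩ := C.exists_ev b.2
    rw [← hF, fnl_D]
    exact le_locAt _ _ (C.ev_mem _)
  have hs0 := ne_zero_of_notMem hs
  have h2 : C.fnl i (D k K (a : K)) = f * C.fnl i (D k K (s : K)) + (s : K) * C.fnl i (D k K f) := by
    rw [← e, Derivation.leibniz, map_add, map_smul, map_smul, smul_eq_mul, smul_eq_mul]
  have h3 : C.fnl i (D k K f) = (C.fnl i (D k K (a : K)) - f * C.fnl i (D k K (s : K))) *
      (s : K)⁻¹ := by
    rw [h2]
    field_simp
    ring
  rw [h3]
  exact (locAt C.ring P).mul_mem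
    ((locAt C.ring P).sub_mem (h1 a) ((locAt C.ring P).mul_mem hf (h1 s))) (inv_mem_locAt hs)

end

variable {m : ℕ} (C : Coord k K (m + 2)) (p : ℕ)

/-- the form `x_1⁻¹ dx_1 ∧ dx_2 ∧ … ∧ dx_{m+1}` -/
def omega : ExteriorAlgebra K Ω[K⁄k] :=
  (C.x 1)⁻¹ • Variety.wedge (m + 1) (fun j : Fin (m + 1) => C.x j.succ)

theorem omega_mem {A : Subalgebra k K} (hA : C.R p ≤ A) (h : (C.x 1)⁻¹ ∈ A) :
    C.omega ∈ Variety.forms (m + 1) A :=
  smul_wedge_mem h fun j => hA (C.x_mem_R p (Fin.succ_ne_zero j))

theorem omega_twist [Fact p.Prime] [CharP k p] : (C.twist p).omega = C.omega := by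
  have hx0 := C.x_ne_zero 0
  have hx1 := C.x_ne_zero 1
  have : CharP K p := charP_of_injective_algebraMap (algebraMap k K).injective p
  have h1 : D k K (C.x 0 ^ p * C.x 1) = C.x 0 ^ p • D k K (C.x 1) := by
    rw [Derivation.leibniz, Derivation.leibniz_pow]
    have : (p : K) = 0 := CharP.cast_eq_zero K p
    rw [← Nat.cast_smul_eq_nsmul K, this]
    simp
  have h2 : (fun j : Fin (m + 1) => D k K ((C.twist p).x j.succ)) =
      Function.update (fun j : Fin (m + 1) => D k K (C.x j.succ)) 0
        (C.x 0 ^ p • D k K (C.x 1)) := by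
    funext j
    by_cases hj : j = 0
    · subst hj
      rw [Function.update_self, twist_x, ← h1]
      exact congrArg _ (C.twistX_one p)
    · rw [Function.update_of_ne hj, twist_x, twistX_of_ne _ _ (Fin.succ_ne_zero j)]
      intro h
      apply hj
      have := congrArg Fin.val h
      ext
      simpa using this
  have h3 : Function.update (fun j : Fin (m + 1) => D k K (C.x j.succ)) 0 (D k K (C.x 1)) =
      fun j : Fin (m + 1) => D k K (C.x j.succ) := by
    rw [Function.update_eq_self_iff]
    rfl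
  rw [omega, omega, Variety.wedge, Variety.wedge, h2, AlternatingMap.map_update_smul, smul_smul,
    twist_x, twistX_one, h3]
  congr 1
  field_simp

theorem omega_regular [Fact p.Prime] [CharP k p] {hp : 1 ≤ p} {A : Subalgebra k K}
    (hA : A ∈ (C.cone p hp).points) (hsm : Variety.SmoothAt A) :
    C.omega ∈ Variety.forms (m + 1) A := by
  obtain ⟨P, hP, rfl⟩ := (C.mem_X_points p).1 hA
  by_cases h1 : (⟨C.x 1, C.x_one_mem_R p⟩ : C.R p) ∈ P
  · by_cases h2 : (⟨_, C.mid_mem p p le_rfl⟩ : C.R p) ∈ P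
    · exact absurd hsm (C.not_smooth p (Fact.out : p.Prime).two_le P (fun _ => h1) (fun _ => h2))
    · rw [← C.omega_twist p]
      refine (C.twist p).omega_mem p ?_ ?_
      · rw [twist_R]
        exact le_locAt _ _
      · rw [twist_x, twistX_one]
        exact inv_mem_locAt h2
  · exact C.omega_mem p (le_locAt _ _) (inv_mem_locAt h1)

theorem omega_notMem (P : Ideal C.ring) [hP : P.IsPrime] (h : (C.x 1)⁻¹ ∉ locAt C.ring P) :
    C.omega ∉ Variety.forms (m + 1) (locAt C.ring P) := by
  intro hω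
  apply h
  have h1 := alt_mem (locAt C.ring P) (fun j : Fin (m + 1) => C.fnl j.succ)
    (fun j a ha => C.fnl_mem j.succ P a ha) hω
  rw [omega, map_smul, detFnl_wedge] at h1
  have h3 : (fun i j : Fin (m + 1) => C.fnl j.succ (D k K (C.x i.succ))) =
      (1 : Matrix (Fin (m + 1)) (Fin (m + 1)) K) := by
    funext i j
    rw [fnl_D_x, Matrix.one_apply]
    congr 1
    rw [Fin.succ_inj]
    exact propext eq_comm
  rw [h3, Matrix.det_one, smul_eq_mul, mul_one] at h1
  exact h1

end Coord

end Pool.Agent.H968R2.FL
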