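import Pool.Agent.H968R2.FL.Defs

/-! Basic facts on localisations inside a field. -/

noncomputable section

namespace Pool.Agent.H968R2.FL

universe u

variable {k K : Type u} [Field k] [Field K] [Algebra k K]

/-- the localisation as a subalgebra of the field -/
def locAt (R : Subalgebra k K) (P : Ideal R) [hP : P.IsPrime] : Subalgebra k K where
  carrier := {f | ∃ a s : R, s ∉ P ∧ f * (s : K) = (a : K)}
  mul_mem' := by
    rintro x y ⟨a, s, hs, h⟩ ⟨b, t, ht, h'⟩
    refine ⟨a * b, s * t, fun hst => (hP.mem_or_mem hst).elim hs ht, ?_⟩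
    push_cast
    rw [← h, ← h']
    ring
  one_mem' := ⟨1, 1, fun h => hP.ne_top ((Ideal.eq_top_iff_one _).2 h), by simp⟩
  add_mem' := by
    rintro x y ⟨a, s, hs, h⟩ ⟨b, t, ht, h'⟩
    refine ⟨a * t + b * s, s * t, fun hst => (hP.mem_or_mem hst).elim hs ht, ?_⟩
    push_cast
    rw [← h, ← h']
    ring
  zero_mem' := ⟨0, 1, fun h => hP.ne_top ((Ideal.eq_top_iff_one _).2 h), by simp⟩
  algebraMap_mem' := fun c =>
    ⟨algebraMap k R c, 1, fun h => hP.ne_top ((Ideal.eq_top_iff_one _).2 h), by simp⟩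

theorem mem_locAt {R : Subalgebra k K} {P : Ideal R} [P.IsPrime] {f : K} :
    f ∈ locAt R P ↔ ∃ a s : R, s ∉ P ∧ f * (s : K) = (a : K) := Iff.rfl

theorem isLocalizationAt_locAt (R : Subalgebra k K) (P : Ideal R) [P.IsPrime] :
    IsLocalizationAt R P (locAt R P) := fun _ => Iff.rfl

theorem IsLocalizationAt.eq {R : Subalgebra k K} {P : Ideal R} [P.IsPrime]
    {A : Subalgebra k K} (h : IsLocalizationAt R P A) : A = locAt R P :=
  SetLike.ext fun f => h f

theorem le_locAt (R : Subalgebra k K) (P : Ideal R) [hP : P.IsPrime] : R ≤ locAt R P := fun f hf =>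
  ⟨⟨f, hf⟩, 1, fun h => hP.ne_top ((Ideal.eq_top_iff_one _).2 h), by simp⟩

instance (R : Subalgebra k K) (P : Ideal R) [P.IsPrime] : Algebra R (locAt R P) :=
  (Subalgebra.inclusion (le_locAt R P)).toRingHom.toAlgebra

theorem algebraMap_locAt_coe (R : Subalgebra k K) (P : Ideal R) [P.IsPrime] (r : R) :
    ((algebraMap R (locAt R P) r : locAt R P) : K) = (r : K) := rfl

instance (R : Subalgebra k K) (P : Ideal R) [P.IsPrime] : IsScalarTower R (locAt R P) K :=
  IsScalarTower.of_algebraMap_eq fun _ => rfl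

instance (R : Subalgebra k K) (P : Ideal R) [P.IsPrime] : IsScalarTower k R (locAt R P) :=
  IsScalarTower.of_algebraMap_eq fun _ => rfl

theorem ne_zero_of_notMem {R : Subalgebra k K} {P : Ideal R} {s : R} (hs : s ∉ P) :
    (s : K) ≠ 0 := by
  intro h
  apply hs
  have : s = 0 := Subtype.ext h
  rw [this]
  exact P.zero_mem

theorem inv_mem_locAt {R : Subalgebra k K} {P : Ideal R} [P.IsPrime] {s : R} (hs : s ∉ P) :
    (s : K)⁻¹ ∈ locAt R P :=
  ⟨1, s, hs, by rw [inv_mul_cancel₀ (ne_zero_of_notMem hs)]; simp⟩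

instance (R : Subalgebra k K) (P : Ideal R) [hP : P.IsPrime] :
    IsLocalization.AtPrime (locAt R P) P where
  map_units := by
    rintro ⟨s, hs⟩
    have hs' : s ∉ P := hs
    rw [isUnit_iff_exists_inv]
    refine ⟨⟨(s : K)⁻¹, inv_mem_locAt hs'⟩, Subtype.ext ?_⟩
    change (s : K) * (s : K)⁻¹ = 1
    exact mul_inv_cancel₀ (ne_zero_of_notMem hs')
  surj := by
    rintro ⟨f, a, s, hs, h⟩
    exact ⟨(a, ⟨s, hs⟩), Subtype.ext h⟩
  exists_of_eq := by
    intro a b h
    refine ⟨1, ?_⟩
    have : (a : K) = b := congrArg (fun z : locAt R P => (z : K)) h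
    rw [Subtype.ext this]

theorem mem_primeIdeal_iff {R : Subalgebra k K} {P : Ideal R} [P.IsPrime] (r : R) (hr : r ≠ 0) :
    r ∈ P ↔ (r : K)⁻¹ ∉ locAt R P := by
  have hr' : (r : K) ≠ 0 := fun h => hr (Subtype.ext h)
  constructor
  · rintro h ⟨a, s, hs, e⟩
    apply hs
    have : s = a * r := by
      apply Subtype.ext
      push_cast
      rw [← e]
      field_simp
    rw [this]
    exact P.mul_mem_left _ h
  · intro h
    by_contra hn
    exact h (inv_mem_locAt hn)

instance (R : Subalgebra k K) (P : Ideal R) [P.IsPrime] : IsLocalRing (locAt R P) :=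
  IsLocalization.AtPrime.isLocalRing (locAt R P) P

theorem isUnit_iff_inv_mem {A : Subalgebra k K} (a : A) (ha : a ≠ 0) :
    IsUnit a ↔ (a : K)⁻¹ ∈ A := by
  have ha' : (a : K) ≠ 0 := fun h => ha (Subtype.ext h)
  constructor
  · intro h
    obtain ⟨b, hb⟩ := isUnit_iff_exists_inv.1 h
    have : (a : K) * (b : K) = 1 := congrArg Subtype.val hb
    rw [inv_eq_of_mul_eq_one_right this]
    exact b.2
  · intro h
    exact isUnit_iff_exists_inv.2 ⟨⟨_, h⟩, Subtype.ext (mul_inv_cancel₀ ha')⟩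

/-- The centre of a local subring on a subring. -/
theorem exists_centre (R A : Subalgebra k K) [IsLocalRing A] (h : R ≤ A) :
    ∃ (P : Ideal R) (_ : P.IsPrime), Dominates (A : Set K) (locAt R P) := by
  let f : R →+* A := (Subalgebra.inclusion h).toRingHom
  refine ⟨(IsLocalRing.maximalIdeal A).comap f, Ideal.comap_isPrime _ _, ?_, ?_⟩
  · rintro x ⟨a, s, hs, e⟩
    have hs' : IsUnit (f s) := by
      by_contra hn
      exact hs ((IsLocalRing.mem_maximalIdeal _).2 hn)
    have hs0 : (s : K) ≠ 0 := ne_zero_of_notMem hs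
    have h0 : f s ≠ 0 := fun h0 => hs0 (congrArg Subtype.val h0)
    have h1 : ((f s : A) : K)⁻¹ ∈ A := (isUnit_iff_inv_mem (f s) h0).1 hs'
    have h2 : x = (a : K) * ((f s : A) : K)⁻¹ := by
      change x = (a : K) * (s : K)⁻¹
      rw [← e]
      field_simp
    rw [h2]
    exact A.mul_mem (h a.2) h1
  · rintro x ⟨a, s, hs, e⟩ hx
    by_cases hx0 : x = 0
    · subst hx0
      simp
    have hs0 : (s : K) ≠ 0 := ne_zero_of_notMem hs
    have ha0 : (a : K) ≠ 0 := by
      rw [← e]
      exact mul_ne_zero hx0 hs0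
    have hs' : IsUnit (f s) := by
      by_contra hn
      exact hs ((IsLocalRing.mem_maximalIdeal _).2 hn)
    have h0 : f s ≠ 0 := fun h0 => hs0 (congrArg Subtype.val h0)
    have h1 : ((f s : A) : K)⁻¹ ∈ A := (isUnit_iff_inv_mem (f s) h0).1 hs'
    refine ⟨s, a, ?_, ?_⟩
    · intro ha
      apply (IsLocalRing.mem_maximalIdeal _).1 ha
      have h3 : f a ≠ 0 := fun h0 => ha0 (congrArg Subtype.val h0)
      rw [isUnit_iff_inv_mem _ h3]
      change (a : K)⁻¹ ∈ A
      rw [← e, mul_inv]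
      exact A.mul_mem hx h1
    · rw [← e]
      field_simp

theorem Dominates.trans {A B C : Set K} (h : Dominates A B) (h' : Dominates B C) :
    Dominates A C :=
  ⟨h'.1.trans h.1, fun a ha hi => h'.2 a ha (h.2 a (h'.1 ha) hi)⟩

/-- Two localisations of the same ring, dominated by the same ring, are equal. -/
theorem locAt_eq_of_dominates {R : Subalgebra k K} {V : Set K} (P Q : Ideal R) [P.IsPrime]
    [Q.IsPrime] (hP : Dominates V (locAt R P)) (hQ : Dominates V (locAt R Q)) :
    locAt R P = locAt R Q := by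
  have key : ∀ (P Q : Ideal R) [P.IsPrime] [Q.IsPrime], Dominates V (locAt R P) →
      Dominates V (locAt R Q) → locAt R P ≤ locAt R Q := by
    intro P Q _ _ hP hQ f ⟨a, s, hs, e⟩
    have h1 : (s : K)⁻¹ ∈ V := hP.1 (inv_mem_locAt hs)
    have h2 : (s : K)⁻¹ ∈ locAt R Q := hQ.2 _ (le_locAt R Q s.2) h1
    have h3 : f = (a : K) * (s : K)⁻¹ := by
      have := ne_zero_of_notMem hs
      rw [← e]
      field_simp
    rw [h3]
    exact (locAt R Q).mul_mem (le_locAt R Q a.2) h2
  exact le_antisymm (key P Q hP hQ) (key Q P hQ hP)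

end Pool.Agent.H968R2.FL
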