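import Pool.Agent.H968R2.FL.Forms

/-! The form does not lift to any proper birational model. -/

noncomputable section

namespace Pool.Agent.H968R2.FL

open MvPolynomial

universe u

set_option maxHeartbeats 400000

variable {k K : Type u} [Field k] [Field K] [Algebra k K] {m : ℕ}

namespace Coord

variable (C : Coord k K (m + 2)) (p : ℕ)

/-- the ideal generated by `x_1` -/
def P1 : Ideal C.ring := Ideal.span {⟨C.x 1, C.x_mem 1⟩}

instance : C.P1.IsPrime := by
  rw [P1, Ideal.span_singleton_prime]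
  · have h1 : (⟨C.x 1, C.x_mem 1⟩ : C.ring) = C.equiv (X 1) := by
      apply Subtype.ext
      rw [C.equiv_coe, ev_X]
    rw [h1]
    exact (MulEquiv.prime_iff (C.equiv : MvPolynomial (Fin (m + 2)) k ≃* C.ring)).2 X_prime
  · intro h
    exact C.x_ne_zero 1 (congrArg Subtype.val h)

theorem inv_notMem : (C.x 1)⁻¹ ∉ locAt C.ring C.P1 := by
  have h := (mem_primeIdeal_iff (P := C.P1) (⟨C.x 1, C.x_mem 1⟩ : C.ring)
    (fun h => C.x_ne_zero 1 (congrArg Subtype.val h))).1 (Ideal.mem_span_singleton_self _)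
  exact h

theorem exists_pow_mul (a : C.ring) (ha : a ≠ 0) :
    ∃ (n : ℕ) (b : C.ring), b ∉ C.P1 ∧ (a : K) = C.x 1 ^ n * b := by
  have hnu : ¬ IsUnit (⟨C.x 1, C.x_mem 1⟩ : C.ring) := by
    intro h
    have : C.P1.IsPrime := inferInstance
    exact this.ne_top (Ideal.span_singleton_eq_top.2 h)
  obtain ⟨b, hb, hnd⟩ := (FiniteMultiplicity.of_not_isUnit hnu ha).exists_eq_pow_mul_and_not_dvd
  refine ⟨multiplicity (⟨C.x 1, C.x_mem 1⟩ : C.ring) a, b, ?_, ?_⟩
  · rwa [P1, Ideal.mem_span_singleton]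
  · have := congrArg (fun z : C.ring => (z : K)) hb
    exact this

theorem mem_or_inv (f : K) : f ∈ locAt C.ring C.P1 ∨ f⁻¹ ∈ locAt C.ring C.P1 := by
  obtain ⟨a, s, hs, rfl⟩ := IsFractionRing.div_surjective (A := C.ring) f
  have hs0 : s ≠ 0 := nonZeroDivisors.ne_zero hs
  by_cases ha0 : a = 0
  · left
    rw [ha0, map_zero, zero_div]
    exact (locAt C.ring C.P1).zero_mem
  obtain ⟨i, b, hb, hab⟩ := C.exists_pow_mul a ha0
  obtain ⟨j, t, ht, hst⟩ := C.exists_pow_mul s hs0
  have hb0 := ne_zero_of_notMem hb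
  have ht0 := ne_zero_of_notMem ht
  have hx := C.x_ne_zero 1
  have hmem : ∀ n, C.x 1 ^ n ∈ locAt C.ring C.P1 := fun n =>
    le_locAt _ _ (Subalgebra.pow_mem _ (C.x_mem 1) n)
  change (a : K) / (s : K) ∈ _ ∨ ((a : K) / (s : K))⁻¹ ∈ _
  rw [hab, hst]
  rcases le_total j i with h | h
  · left
    obtain ⟨r, rfl⟩ := exists_add_of_le h
    have : C.x 1 ^ (j + r) * (b : K) / (C.x 1 ^ j * (t : K)) = C.x 1 ^ r * (b : K) * (t : K)⁻¹ := by
      field_simp
      ring
    rw [this]
    exact Subalgebra.mul_mem _ (Subalgebra.mul_mem _ (hmem r) (le_locAt _ _ b.2)) (inv_mem_locAt ht)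
  · right
    obtain ⟨r, rfl⟩ := exists_add_of_le h
    have : (C.x 1 ^ i * (b : K) / (C.x 1 ^ (i + r) * (t : K)))⁻¹ =
        C.x 1 ^ r * (t : K) * (b : K)⁻¹ := by
      field_simp
      ring
    rw [this]
    exact Subalgebra.mul_mem _ (Subalgebra.mul_mem _ (hmem r) (le_locAt _ _ t.2)) (inv_mem_locAt hb)

/-- the valuation ring of the exceptional divisor `x_1 = 0` -/
def val : ValuationSubring K :=
  { (locAt C.ring C.P1).toSubring with
    mem_or_inv_mem' := C.mem_or_inv }

theorem mem_val {f : K} : f ∈ C.val ↔ f ∈ locAt C.ring C.P1 := Iff.rfl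

theorem isOpen_points {R : Subalgebra k K} {fg : R.FG} {frac : IsFractionRing R K} :
    (affine R fg frac).IsOpen (affine R fg frac).points := by
  refine ⟨subset_rfl, fun A hA => ?_⟩
  obtain ⟨P, hP, rfl⟩ := mem_affine_points.1 hA
  refine ⟨(), 1, R.one_mem, one_ne_zero, le_locAt R P, ?_, fun B hB _ _ => hB⟩
  rw [inv_one]
  exact Subalgebra.one_mem _

theorem not_formsLift [Fact p.Prime] [CharP k p] (hp : 1 ≤ p) (Y : Variety k K)
    (hm : Variety.IsMorphism Y (C.cone p hp)) (hY : Variety.IsProper Y (C.cone p hp)) :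
    ¬ Variety.FormsLift (m + 1) Y (C.cone p hp) := by
  intro hlift
  obtain ⟨P, hP, hd⟩ := exists_centre_val (C.R p) C.val
    (fun f hf => le_locAt _ _ (C.R_le p hf))
  obtain ⟨B, hB, hVB⟩ := hY C.val ⟨_, (C.mem_X_points p).2 ⟨P, hP, rfl⟩, hd⟩
  obtain ⟨A, hA, hBA⟩ := hm B hB
  have h1 := hlift (C.cone p hp).points isOpen_points C.omega
    (C.omega_mem p (fun _ _ => Algebra.mem_top) Algebra.mem_top)
    (fun A hA hsm => C.omega_regular p hA hsm) A hA B hB hBA
  exact C.omega_notMem C.P1 C.inv_notMem (forms_mono (fun f hf => hVB.1 hf) h1)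

end Coord

/-- the coordinates of the field of rational functions -/
def stdCoord (k L : Type u) [Field k] [Field L] [Algebra k L] (n : ℕ)
    [Algebra (MvPolynomial (Fin n) k) L] [IsScalarTower k (MvPolynomial (Fin n) k) L]
    [IsFractionRing (MvPolynomial (Fin n) k) L] : Coord k L n := by
  have hx : ∀ F : MvPolynomial (Fin n) k,
      aeval (fun i => algebraMap (MvPolynomial (Fin n) k) L (X i)) F =
        algebraMap (MvPolynomial (Fin n) k) L F := by
    intro F
    have h : (aeval (fun i => algebraMap (MvPolynomial (Fin n) k) L (X i)) :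
        MvPolynomial (Fin n) k →ₐ[k] L) =
        IsScalarTower.toAlgHom k (MvPolynomial (Fin n) k) L := by
      ext i
      rw [aeval_X]
      rfl
    rw [h]
    rfl
  have hmem : ∀ F : MvPolynomial (Fin n) k, algebraMap (MvPolynomial (Fin n) k) L F ∈
      Algebra.adjoin k (Set.range fun i => algebraMap (MvPolynomial (Fin n) k) L (X i)) := by
    intro F
    rw [← hx, Algebra.adjoin_range_eq_range_aeval]
    exact ⟨F, rfl⟩
  refine ⟨fun i => algebraMap (MvPolynomial (Fin n) k) L (X i), ?_, ?_, ?_, ?_⟩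
  · intro F G h
    rw [hx, hx] at h
    exact IsFractionRing.injective (MvPolynomial (Fin n) k) L h
  · rintro ⟨b, hb⟩
    have hb0 : b ≠ 0 := nonZeroDivisors.ne_zero hb
    exact IsUnit.mk0 _ fun h0 => hb0 (Subtype.ext h0)
  · intro z
    obtain ⟨a, s, hs, rfl⟩ := IsFractionRing.div_surjective (A := MvPolynomial (Fin n) k) z
    have hs0 : algebraMap (MvPolynomial (Fin n) k) L s ≠ 0 := by
      intro h
      apply nonZeroDivisors.ne_zero hs
      apply IsFractionRing.injective (MvPolynomial (Fin n) k) L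
      rw [h, map_zero]
    refine ⟨(⟨_, hmem a⟩, ⟨⟨_, hmem s⟩, ?_⟩), ?_⟩
    · apply mem_nonZeroDivisors_of_ne_zero
      intro h0
      exact hs0 (congrArg Subtype.val h0)
    · change algebraMap (MvPolynomial (Fin n) k) L a / algebraMap (MvPolynomial (Fin n) k) L s *
        algebraMap (MvPolynomial (Fin n) k) L s = algebraMap (MvPolynomial (Fin n) k) L a
      field_simp
  · intro a b hab
    exact ⟨1, by rw [Subtype.ext hab]⟩

end Pool.Agent.H968R2.FL
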