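import Mathlib

/-! An obstruction to formal smoothness. -/

noncomputable section

namespace Pool.Agent.H968R2.FL

open Polynomial

universe u

theorem no_lift {k κ A : Type u} [Field k] [Field κ] [Algebra k κ] [CommRing A] [Algebra k A]
    [Algebra.FormallySmooth k A] (g : A →ₐ[k] κ[X] ⧸ Ideal.span {(X : κ[X]) ^ 2}) (a b c : A)
    (hrel : a * c = b * b) (ha : g a = 0) (hc : g c = 0) (hb : g b = Ideal.Quotient.mk _ X) :
    False := by
  have hle : Ideal.span {(X : κ[X]) ^ 3} ≤ Ideal.span {(X : κ[X]) ^ 2} := by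
    rw [Ideal.span_singleton_le_span_singleton]
    exact pow_dvd_pow _ (by norm_num)
  obtain ⟨π, hπ⟩ : ∃ π : (κ[X] ⧸ Ideal.span {(X : κ[X]) ^ 3}) →ₐ[k]
      κ[X] ⧸ Ideal.span {(X : κ[X]) ^ 2}, ∀ f, π (Ideal.Quotient.mk _ f) = Ideal.Quotient.mk _ f :=
    ⟨Ideal.Quotient.factorₐ k hle, fun f => rfl⟩
  have hsurj : Function.Surjective π := by
    intro x
    obtain ⟨f, rfl⟩ := Ideal.Quotient.mk_surjective x
    exact ⟨_, hπ f⟩
  have hker : ∀ x, π x = 0 → ∃ y : κ[X], x = Ideal.Quotient.mk _ (X ^ 2 * y) := by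
    intro x hx
    obtain ⟨f, rfl⟩ := Ideal.Quotient.mk_surjective x
    rw [hπ, Ideal.Quotient.eq_zero_iff_mem, Ideal.mem_span_singleton] at hx
    obtain ⟨y, rfl⟩ := hx
    exact ⟨y, rfl⟩
  have hnil : IsNilpotent (RingHom.ker (π : (κ[X] ⧸ Ideal.span {(X : κ[X]) ^ 3}) →+*
      κ[X] ⧸ Ideal.span {(X : κ[X]) ^ 2})) := by
    refine ⟨2, (pow_two (M := Ideal (κ[X] ⧸ Ideal.span {(X : κ[X]) ^ 3})) _).trans ?_⟩
    rw [Ideal.zero_eq_bot, eq_bot_iff, Ideal.mul_le]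
    intro x hx y hy
    obtain ⟨a, rfl⟩ := hker x hx
    obtain ⟨b, rfl⟩ := hker y hy
    rw [Ideal.mem_bot, ← map_mul, Ideal.Quotient.eq_zero_iff_mem, Ideal.mem_span_singleton]
    exact ⟨X * a * b, by ring⟩
  obtain ⟨h, hh⟩ : ∃ h : A →ₐ[k] (κ[X] ⧸ Ideal.span {(X : κ[X]) ^ 3}), ∀ a, π (h a) = g a :=
    ⟨Algebra.FormallySmooth.liftOfSurjective g π hsurj hnil,
      Algebra.FormallySmooth.liftOfSurjective_apply g π hsurj hnil⟩
  obtain ⟨a', ha'⟩ := hker (h a) (by rw [hh, ha])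
  obtain ⟨c', hc'⟩ := hker (h c) (by rw [hh, hc])
  obtain ⟨b', hb'⟩ := hker (h b - Ideal.Quotient.mk _ X) (by
    rw [map_sub, hh, hb, hπ]
    exact sub_self _)
  have hb'' : h b = Ideal.Quotient.mk _ (X + X ^ 2 * b') := by
    rw [map_add, ← hb']
    ring
  have h5 : h a * h c = h b * h b := by rw [← map_mul, ← map_mul, hrel]
  rw [ha', hc', hb'', ← map_mul, ← map_mul, Ideal.Quotient.eq, Ideal.mem_span_singleton] at h5
  obtain ⟨y, hy⟩ := h5
  have h6 := congrArg (fun f => coeff f 2) hy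
  have h7 : (X ^ 2 * a' * (X ^ 2 * c') - (X + X ^ 2 * b') * (X + X ^ 2 * b') : κ[X]) =
      - X ^ 2 + X ^ 3 * (X * a' * c' - 2 * b' - X * b' * b') := by
    ring
  simp only [h7] at h6
  rw [coeff_add, coeff_neg, coeff_X_pow_self, coeff_X_pow_mul', coeff_X_pow_mul'] at h6
  simp at h6

end Pool.Agent.H968R2.FL
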