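import Pool.Agent.H968R2.FL.RProps
import Pool.Agent.H968R2.FL.Trunc

/-! The cone is not smooth at the points of the vertex locus. -/

noncomputable section

namespace Pool.Agent.H968R2.FL

open MvPolynomial

universe u

set_option maxHeartbeats 400000

theorem exists_liftAlg {k A S B : Type u} [CommRing k] [CommRing A] [CommRing S] [CommRing B]
    [Algebra k A] [Algebra k S] [Algebra A S] [IsScalarTower k A S] [Algebra k B] (M : Submonoid A)
    [IsLocalization M S] (f : A →ₐ[k] B) (h : ∀ s : M, IsUnit (f s)) :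
    ∃ g : S →ₐ[k] B, ∀ a, g (algebraMap A S a) = f a :=
  ⟨IsLocalization.liftAlgHom (M := M) (f := f) h, fun a => IsLocalization.lift_eq _ a⟩

variable {k K : Type u} [Field k] [Field K] [Algebra k K] {m : ℕ}

namespace Coord

variable (C : Coord k K (m + 2)) (p : ℕ)

/-- the inclusion of `R` in the polynomial ring -/
def toPoly : C.R p →ₐ[k] MvPolynomial (Fin (m + 2)) k :=
  C.equiv.symm.toAlgHom.comp (Subalgebra.inclusion (C.R_le p))

theorem ev_toPoly (r : C.R p) : C.ev (C.toPoly p r) = (r : K) := by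
  rw [← C.equiv_coe]
  change ((C.equiv (C.equiv.symm _) : C.ring) : K) = _
  rw [AlgEquiv.apply_symm_apply]
  rfl

theorem supp_toPoly (r : C.R p) : ∀ e ∈ (C.toPoly p r).support, e 0 ≤ p * e 1 :=
  (C.mem_R_iff p _).1 (by rw [C.ev_toPoly]; exact r.2)

theorem toPoly_eq {r : C.R p} {F : MvPolynomial (Fin (m + 2)) k} (h : C.ev F = (r : K)) :
    C.toPoly p r = F := C.ev_injective ((C.ev_toPoly p r).trans h.symm)

theorem x_mem_R' {i : Fin (m + 2)} (h0 : i ≠ 0) : C.x i ∈ C.R p := by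
  by_cases h1 : i = 1
  · subst h1
    exact C.x_one_mem_R p
  · refine ⟨C.x_mem i, ?_⟩
    have : C.x i = (C.twist p).x i := by rw [twist_x, twistX_of_ne _ _ h0 h1]
    rw [SetLike.mem_coe, this]
    exact x_mem _ _

/-- monomials in the ideal of the vertex -/
theorem monomial_mem (hp : 1 ≤ p) (P : Ideal (C.R p)) [hP : P.IsPrime]
    (h1 : ∀ (h : C.x 1 ∈ C.R p), (⟨_, h⟩ : C.R p) ∈ P)
    (h2 : ∀ (h : C.x 0 ^ p * C.x 1 ∈ C.R p), (⟨_, h⟩ : C.R p) ∈ P) (a b : ℕ) (hb : 1 ≤ b)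
    (hab : a ≤ p * b) (hm : C.x 0 ^ a * C.x 1 ^ b ∈ C.R p) :
    (⟨_, hm⟩ : C.R p) ∈ P := by
  apply hP.mem_of_pow_mem p
  have hgen : C.x 0 ^ p * C.x 1 ∈ C.R p := by
    have := C.gen_mem_R p (Sum.inl ⟨p, by omega⟩)
    simpa [gen] using this
  have h3 := h2 hgen
  have e : (⟨_, hm⟩ : C.R p) ^ p =
      (⟨_, hgen⟩ : C.R p) ^ a * (⟨C.x 1, C.x_one_mem_R p⟩ : C.R p) ^ (p * b - a) := by
    apply Subtype.ext
    push_cast
    obtain ⟨r, hr⟩ := exists_add_of_le hab
    rw [hr, Nat.add_sub_cancel_left]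
    calc (C.x 0 ^ a * C.x 1 ^ b) ^ p = C.x 0 ^ (a * p) * C.x 1 ^ (p * b) := by ring
      _ = C.x 0 ^ (a * p) * C.x 1 ^ (a + r) := by rw [hr]
      _ = (C.x 0 ^ p * C.x 1) ^ a * C.x 1 ^ r := by ring
  rw [e]
  by_cases ha : a = 0
  · subst ha
    have h4 : 0 < p * b - 0 := by
      have := Nat.mul_le_mul hp hb
      omega
    exact P.mul_mem_left _ (P.pow_mem_of_mem (h1 _) _ h4)
  · exact P.mul_mem_right _ (P.pow_mem_of_mem h3 _ (Nat.pos_of_ne_zero ha))

variable {p} in
/-- the values of the coordinates at a point of the vertex locus -/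
def tau {κ : Type u} [Field κ] [Algebra k κ] (res : C.R p →ₐ[k] κ) : Fin (m + 2) → κ := fun i =>
  if h : i = 0 then 0 else if i = 1 then 0 else res ⟨C.x i, C.x_mem_R' p h⟩

section

variable {κ : Type u} [Field κ] [Algebra k κ] (res : C.R p →ₐ[k] κ)

/-- evaluation at the point -/
def E : MvPolynomial (Fin (m + 2)) k →ₐ[k] κ := aeval (C.tau res)

/-- the mixed second derivative at the point -/
def Dd (F : MvPolynomial (Fin (m + 2)) k) : κ := C.E p res (pderiv 0 (pderiv 1 F))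

theorem tau_zero : C.tau res 0 = 0 := by simp [tau]

theorem tau_one : C.tau res 1 = 0 := by simp [tau]

theorem E_monomial (e : Fin (m + 2) →₀ ℕ) (c : k) :
    C.E p res (monomial e c) = algebraMap k κ c * ∏ i, C.tau res i ^ e i := by
  rw [E, aeval_monomial, Finsupp.prod_fintype]
  intro i
  simp

theorem E_pderiv (F : MvPolynomial (Fin (m + 2)) k) (hF : ∀ e ∈ F.support, e 0 ≤ p * e 1) :
    C.E p res (pderiv 0 F) = 0 := by
  rw [F.as_sum, map_sum, map_sum]
  refine Finset.sum_eq_zero fun e he => ?_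
  rw [pderiv_monomial, E_monomial]
  by_cases h1 : e 1 = 0
  · have h0 : e 0 = 0 := by
      have := hF e he
      rw [h1] at this
      simpa using this
    rw [h0]
    simp
  · have h2 : C.tau res 1 ^ ((e - Finsupp.single 0 1 : Fin (m + 2) →₀ ℕ) 1) = 0 := by
      rw [tau_one]
      apply zero_pow
      simpa using h1
    rw [Finset.prod_eq_zero (Finset.mem_univ 1) h2, mul_zero]

theorem Dd_mul (F G : MvPolynomial (Fin (m + 2)) k) (hF : ∀ e ∈ F.support, e 0 ≤ p * e 1)
    (hG : ∀ e ∈ G.support, e 0 ≤ p * e 1) :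
    C.Dd p res (F * G) = C.E p res F * C.Dd p res G + C.E p res G * C.Dd p res F := by
  have h1 := C.E_pderiv p res F hF
  have h2 := C.E_pderiv p res G hG
  simp only [Dd, Derivation.leibniz, smul_eq_mul, map_add, map_mul, h1, h2]
  ring

open Polynomial in
/-- the first order thickening of the point in the direction of `x_0 x_1` -/
def gR (r : C.R p) : κ[X] ⧸ Ideal.span {(Polynomial.X : κ[X]) ^ 2} :=
  Ideal.Quotient.mk _ (Polynomial.C (C.E p res (C.toPoly p r)) +
    Polynomial.C (C.Dd p res (C.toPoly p r)) * Polynomial.X)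

theorem gR_mul (r s : C.R p) : C.gR p res (r * s) = C.gR p res r * C.gR p res s := by
  rw [gR, gR, gR, ← map_mul, Ideal.Quotient.eq, Ideal.mem_span_singleton']
  refine ⟨- Polynomial.C (C.Dd p res (C.toPoly p r) * C.Dd p res (C.toPoly p s)), ?_⟩
  rw [map_mul (C.toPoly p), C.Dd_mul p res _ _ (C.supp_toPoly p r) (C.supp_toPoly p s), map_mul]
  simp only [map_mul, map_add]
  ring

theorem gR_add (r s : C.R p) : C.gR p res (r + s) = C.gR p res r + C.gR p res s := by
  rw [gR, gR, gR, ← map_add]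
  congr 1
  simp only [Dd, map_add]
  ring

theorem gR_algebraMap (c : k) : C.gR p res (algebraMap k (C.R p) c) =
    algebraMap k _ c := by
  have h1 : C.toPoly p (algebraMap k (C.R p) c) = MvPolynomial.C c := AlgHom.commutes _ _
  rw [gR, h1, Dd, pderiv_C, map_zero, map_zero, map_zero, zero_mul, add_zero, E, aeval_C]
  rfl

/-- `gR` as a homomorphism of algebras -/
def gHom : C.R p →ₐ[k] Polynomial κ ⧸ Ideal.span {(Polynomial.X : Polynomial κ) ^ 2} where
  toFun := C.gR p res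
  map_one' := by
    have := C.gR_algebraMap p res 1
    rwa [map_one, map_one] at this
  map_mul' := C.gR_mul p res
  map_zero' := by
    have := C.gR_algebraMap p res 0
    rwa [map_zero, map_zero] at this
  map_add' := C.gR_add p res
  commutes' := C.gR_algebraMap p res

theorem isUnit_gHom (r : C.R p) (h : C.E p res (C.toPoly p r) ≠ 0) : IsUnit (C.gHom p res r) := by
  rw [isUnit_iff_exists_inv]
  set a := C.E p res (C.toPoly p r) with ha
  set b := C.Dd p res (C.toPoly p r) with hb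
  refine ⟨Ideal.Quotient.mk _ (Polynomial.C a⁻¹ - Polynomial.C (a⁻¹ ^ 2 * b) * Polynomial.X), ?_⟩
  change Ideal.Quotient.mk _ (Polynomial.C a + Polynomial.C b * Polynomial.X) * _ = 1
  rw [← map_mul, ← map_one (Ideal.Quotient.mk _), Ideal.Quotient.eq, Ideal.mem_span_singleton']
  refine ⟨- Polynomial.C (a⁻¹ ^ 2 * b ^ 2), ?_⟩
  have h1 : (Polynomial.C a : Polynomial κ) * Polynomial.C a⁻¹ = 1 := by
    rw [← map_mul, mul_inv_cancel₀ h, map_one]
  simp only [map_mul, map_pow]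
  linear_combination (-1 + Polynomial.C b * Polynomial.X * Polynomial.C a⁻¹) * h1

end

/-- at the points of the vertex locus, `E` computes the residue class -/
theorem E_eq {κ : Type u} [Field κ] [Algebra k κ] (res : C.R p →ₐ[k] κ) (hp : 1 ≤ p)
    (P : Ideal (C.R p)) [hP : P.IsPrime] (hres : ∀ r, res r = 0 ↔ r ∈ P)
    (h1 : ∀ (h : C.x 1 ∈ C.R p), (⟨_, h⟩ : C.R p) ∈ P)
    (h2 : ∀ (h : C.x 0 ^ p * C.x 1 ∈ C.R p), (⟨_, h⟩ : C.R p) ∈ P) (r : C.R p) :
    C.E p res (C.toPoly p r) = res r := by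
  have hmono : ∀ (e : Fin (m + 2) →₀ ℕ) (c : k) (he : e 0 ≤ p * e 1)
      (hmem : C.ev (monomial e c) ∈ C.R p), C.E p res (monomial e c) = res ⟨_, hmem⟩ := by
    intro e c he hmem
    rw [E_monomial]
    have hpow : C.x 0 ^ e 0 * C.x 1 ^ e 1 ∈ C.R p := by
      have := C.pow_mem_adjoin p (e 1) (e 0) he
      rwa [← R_eq_adjoin] at this
    have hprod : ∏ i : Fin m, C.x i.succ.succ ^ e i.succ.succ ∈ C.R p :=
      Subalgebra.prod_mem _ fun i _ => Subalgebra.pow_mem _ (C.x_mem_R' p (Fin.succ_ne_zero _)) _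
    have h3 : (⟨_, hmem⟩ : C.R p) = algebraMap k (C.R p) c * (⟨_, hpow⟩ * ⟨_, hprod⟩) := by
      apply Subtype.ext
      change C.ev (monomial e c) = algebraMap k K c * (_ * _)
      rw [ev_monomial, prod_split]
    rw [h3, map_mul, map_mul, AlgHom.commutes]
    congr 1
    by_cases hb : e 1 = 0
    · have h0 : e 0 = 0 := by
        rw [hb] at he
        simpa using he
      have h4 : (⟨_, hpow⟩ : C.R p) = 1 := by
        apply Subtype.ext
        change C.x 0 ^ e 0 * C.x 1 ^ e 1 = 1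
        rw [h0, hb]
        simp
      rw [h4, map_one, one_mul]
      have h5 : (⟨_, hprod⟩ : C.R p) =
          ∏ i : Fin m, (⟨C.x i.succ.succ, C.x_mem_R' p (Fin.succ_ne_zero _)⟩ : C.R p) ^ e i.succ.succ := by
        apply Subtype.ext
        push_cast
        rfl
      rw [h5, map_prod, Fin.prod_univ_succ, Fin.prod_univ_succ]
      have h6 : e (Fin.succ 0) = 0 := hb
      rw [h0, h6, pow_zero, pow_zero, one_mul, one_mul]
      refine Finset.prod_congr rfl fun i _ => ?_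
      rw [map_pow]
      congr 1
    · have h4 : (⟨_, hpow⟩ : C.R p) ∈ P :=
        C.monomial_mem p hp P h1 h2 _ _ (Nat.one_le_iff_ne_zero.2 hb) he hpow
      rw [(hres _).2 h4, zero_mul, Finset.prod_eq_zero (Finset.mem_univ 1)]
      rw [tau_one, zero_pow hb]
  have hsum : ∀ F : MvPolynomial (Fin (m + 2)) k, (∀ e ∈ F.support, e 0 ≤ p * e 1) →
      ∀ hmem : C.ev F ∈ C.R p, C.E p res F = res ⟨_, hmem⟩ := by
    intro F hF hmem
    have hm' : ∀ e ∈ F.support, C.ev (monomial e (coeff e F)) ∈ C.R p := by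
      intro e he
      rw [mem_R_iff]
      intro e' he'
      have := Finset.mem_singleton.1 (support_monomial_subset he')
      subst this
      exact hF _ he
    have h3 : (⟨_, hmem⟩ : C.R p) =
        ∑ e ∈ F.support.attach, ⟨_, hm' e.1 e.2⟩ := by
      apply Subtype.ext
      push_cast
      conv_lhs => rw [F.as_sum, map_sum]
      exact (Finset.sum_attach F.support fun e => C.ev (monomial e (coeff e F))).symm
    rw [h3, map_sum]
    conv_lhs => rw [F.as_sum, map_sum, ← Finset.sum_attach]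
    exact Finset.sum_congr rfl fun e _ => hmono _ _ (hF _ e.2) _
  rw [hsum _ (C.supp_toPoly p r) (by rw [ev_toPoly]; exact r.2)]
  congr 1
  exact Subtype.ext (C.ev_toPoly p r)

theorem exists_res (P : Ideal (C.R p)) [hP : P.IsPrime] :
    ∃ (κ : Type u) (_ : Field κ) (_ : Algebra k κ)
      (res : C.R p →ₐ[k] κ), ∀ r, res r = 0 ↔ r ∈ P := by
  refine ⟨IsLocalRing.ResidueField (locAt (C.R p) P), inferInstance, inferInstance,
    (IsScalarTower.toAlgHom k (locAt (C.R p) P) _).comp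
      (IsScalarTower.toAlgHom k (C.R p) (locAt (C.R p) P)), ?_⟩
  intro r
  change IsLocalRing.residue _ (algebraMap (C.R p) (locAt (C.R p) P) r) = 0 ↔ r ∈ P
  rw [IsLocalRing.residue_eq_zero_iff]
  exact IsLocalization.AtPrime.to_map_mem_maximal_iff (locAt (C.R p) P) P r

theorem mid_mem (i : ℕ) (hi : i ≤ p) : C.x 0 ^ i * C.x 1 ∈ C.R p := by
  have := C.gen_mem_R p (Sum.inl ⟨i, by omega⟩)
  simpa [gen] using this

theorem toPoly_mid (i : ℕ) (hi : i ≤ p) : C.toPoly p ⟨_, C.mid_mem p i hi⟩ =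
    MvPolynomial.X 0 ^ i * MvPolynomial.X 1 :=
  C.toPoly_eq p (by rw [map_mul, map_pow, ev_X, ev_X])

theorem pderiv_mid (i : ℕ) : pderiv (0 : Fin (m + 2)) (pderiv (1 : Fin (m + 2))
      ((MvPolynomial.X 0 : MvPolynomial (Fin (m + 2)) k) ^ i * MvPolynomial.X 1)) =
      (i : MvPolynomial (Fin (m + 2)) k) * MvPolynomial.X 0 ^ (i - 1) := by
  have h01 : (0 : Fin (m + 2)) ≠ 1 := by simp
  rw [Derivation.leibniz, Derivation.leibniz_pow, pderiv_X_of_ne h01, pderiv_X_self]
  simp only [smul_eq_mul, smul_zero, add_zero, mul_one, mul_zero]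
  rw [Derivation.leibniz_pow, pderiv_X_self]
  simp

section

variable {κ : Type u} [Field κ] [Algebra k κ] (res : C.R p →ₐ[k] κ)

theorem E_X_zero : C.E p res (MvPolynomial.X 0) = 0 := by rw [E, aeval_X, tau_zero]

theorem E_X_one : C.E p res (MvPolynomial.X 1) = 0 := by rw [E, aeval_X, tau_one]

theorem gHom_mid_zero : C.gHom p res ⟨_, C.mid_mem p 0 (Nat.zero_le _)⟩ = 0 := by
  change C.gR p res _ = 0
  rw [gR, toPoly_mid _ _ _ (Nat.zero_le _), Dd, pderiv_mid]
  simp [E_X_one]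

theorem gHom_mid_one (hp : 1 ≤ p) :
    C.gHom p res ⟨_, C.mid_mem p 1 hp⟩ = Ideal.Quotient.mk _ Polynomial.X := by
  change C.gR p res _ = _
  rw [gR, toPoly_mid _ _ _ hp, Dd, pderiv_mid]
  simp [E_X_one]

theorem gHom_mid_two (hp : 2 ≤ p) : C.gHom p res ⟨_, C.mid_mem p 2 hp⟩ = 0 := by
  change C.gR p res _ = 0
  rw [gR, toPoly_mid _ _ _ hp, Dd, pderiv_mid]
  simp [E_X_one, E_X_zero]

end

theorem not_smooth_aux {κ A : Type u} [Field κ] [Algebra k κ] [CommRing A] [Algebra k A]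
    [Algebra.FormallySmooth k A] (hp : 2 ≤ p) (res : C.R p →ₐ[k] κ) (i : C.R p →ₐ[k] A)
    (g : A →ₐ[k] Polynomial κ ⧸ Ideal.span {(Polynomial.X : Polynomial κ) ^ 2})
    (hg : ∀ r, g (i r) = C.gHom p res r) : False := by
  refine no_lift g (i ⟨_, C.mid_mem p 0 (Nat.zero_le _)⟩) (i ⟨_, C.mid_mem p 1 (by omega)⟩)
    (i ⟨_, C.mid_mem p 2 hp⟩) ?_ ?_ ?_ ?_
  · rw [← map_mul, ← map_mul]
    congr 1
    apply Subtype.ext
    change (C.x 0 ^ 0 * C.x 1) * (C.x 0 ^ 2 * C.x 1) = (C.x 0 ^ 1 * C.x 1) * (C.x 0 ^ 1 * C.x 1)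
    ring
  · rw [hg, gHom_mid_zero]
  · rw [hg, gHom_mid_two _ _ _ hp]
  · rw [hg, gHom_mid_one]
    omega

theorem not_smooth (hp : 2 ≤ p) (P : Ideal (C.R p)) [hP : P.IsPrime]
    (h1 : ∀ (h : C.x 1 ∈ C.R p), (⟨_, h⟩ : C.R p) ∈ P)
    (h2 : ∀ (h : C.x 0 ^ p * C.x 1 ∈ C.R p), (⟨_, h⟩ : C.R p) ∈ P) :
    ¬ Algebra.FormallySmooth k (locAt (C.R p) P) := by
  intro hsm
  obtain ⟨κ, _, _, res, hres⟩ := C.exists_res p P
  have hunit : ∀ s : P.primeCompl, IsUnit (C.gHom p res s) := by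
    rintro ⟨s, hs⟩
    apply C.isUnit_gHom
    rw [C.E_eq p res (by omega) P hres h1 h2]
    intro h0
    exact hs ((hres s).1 h0)
  obtain ⟨g, hg⟩ := exists_liftAlg (S := locAt (C.R p) P) P.primeCompl (C.gHom p res) hunit
  exact C.not_smooth_aux p hp res (IsScalarTower.toAlgHom k (C.R p) (locAt (C.R p) P)) g hg

end Coord

end Pool.Agent.H968R2.FL
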