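import Pool.Agent.H968R2.FL.Loc

/-! A normal Noetherian domain is the intersection of its discrete valuation localisations. -/

noncomputable section

namespace Pool.Agent.H968R2.FL

universe u

variable {k K : Type u} [Field k] [Field K] [Algebra k K]

theorem isFractionRing_of_le {R B : Subalgebra k K} [IsFractionRing R K] (h : R ≤ B) :
    IsFractionRing B K where
  map_units := by
    rintro ⟨b, hb⟩
    have hb0 : b ≠ 0 := nonZeroDivisors.ne_zero hb
    have : (b : K) ≠ 0 := fun h0 => hb0 (Subtype.ext h0)
    exact IsUnit.mk0 _ this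
  surj := by
    intro z
    obtain ⟨⟨a, s⟩, e⟩ := IsLocalization.surj (nonZeroDivisors R) z
    have hs0 : (s : R) ≠ 0 := nonZeroDivisors.ne_zero s.2
    refine ⟨(⟨(a : K), h a.2⟩, ⟨⟨((s : R) : K), h (s : R).2⟩, ?_⟩), e⟩
    apply mem_nonZeroDivisors_of_ne_zero
    intro h0
    apply hs0
    have := congrArg (fun z : B => (z : K)) h0
    exact Subtype.ext this
  exists_of_eq := by
    intro a b hab
    refine ⟨1, ?_⟩
    have : a = b := Subtype.ext hab
    rw [this]

theorem mem_locAt_of_forall_dvr (R : Subalgebra k K) [IsNoetherianRing R] [IsIntegrallyClosed R]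
    [IsFractionRing R K] (P : Ideal R) [hP : P.IsPrime] (f : K)
    (h : ∀ (Q : Ideal R) (_ : Q.IsPrime), Q ≤ P → IsDiscreteValuationRing (locAt R Q) →
      f ∈ locAt R Q) : f ∈ locAt R P := by
  by_contra hf
  -- the ideals `J g`
  let J : R → Ideal R := fun g =>
    { carrier := {r | (r : K) * ((g : K) * f) ∈ locAt R P}
      add_mem' := by
        intro a b ha hb
        change ((a + b : R) : K) * ((g : K) * f) ∈ locAt R P
        push_cast
        rw [add_mul]
        exact (locAt R P).add_mem ha hb
      zero_mem' := by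
        change ((0 : R) : K) * ((g : K) * f) ∈ locAt R P
        simp
      smul_mem' := by
        intro c a ha
        change ((c * a : R) : K) * ((g : K) * f) ∈ locAt R P
        push_cast
        rw [mul_assoc]
        exact (locAt R P).mul_mem (le_locAt R P c.2) ha }
  have hJ : ∀ g r : R, r ∈ J g ↔ (r : K) * ((g : K) * f) ∈ locAt R P := fun _ _ => Iff.rfl
  let S : Set (Ideal R) := {I | ∃ g : R, (g : K) * f ∉ locAt R P ∧ I = J g}
  have hS : S.Nonempty := ⟨J 1, 1, by simpa using hf, rfl⟩
  obtain ⟨Q, ⟨g, hg, hQg⟩, hmax⟩ : ∃ Q : Ideal R, Q ∈ S ∧ ∀ I ∈ S, ¬ Q < I :=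
    set_has_maximal_iff_noetherian.2 (inferInstance : IsNoetherian R R) S hS
  have hQprime : Q.IsPrime := by
    refine ⟨?_, ?_⟩
    · intro htop
      apply hg
      have : (1 : R) ∈ J g := by rw [← hQg, htop]; trivial
      rw [hJ] at this
      simpa using this
    · intro a b hab
      by_contra hcon
      push Not at hcon
      obtain ⟨ha, hb⟩ := hcon
      have ha' : ((a * g : R) : K) * f ∉ locAt R P := by
        intro hh
        apply ha
        rw [hQg, hJ]
        push_cast at hh
        rw [← mul_assoc]
        exact hh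
      have hle : Q < J (a * g) := by
        refine lt_of_le_of_ne ?_ ?_
        · intro r hr
          rw [hQg, hJ] at hr
          rw [hJ]
          push_cast
          have : (r : K) * ((a : K) * (g : K) * f) = (a : K) * ((r : K) * ((g : K) * f)) := by ring
          rw [this]
          exact (locAt R P).mul_mem (le_locAt R P a.2) hr
        · intro heq
          apply hb
          rw [heq, hJ]
          rw [hQg, hJ] at hab
          push_cast at hab ⊢
          have : (b : K) * ((a : K) * (g : K) * f) = (a : K) * (b : K) * ((g : K) * f) := by ring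
          rw [this]
          exact hab
      exact hmax _ ⟨a * g, ha', rfl⟩ hle
  have hQP : Q ≤ P := by
    intro r hr
    by_contra hn
    apply hg
    rw [hQg, hJ] at hr
    have := (locAt R P).mul_mem (inv_mem_locAt hn) hr
    rwa [← mul_assoc, inv_mul_cancel₀ (ne_zero_of_notMem hn), one_mul] at this
  have hPQ : locAt R P ≤ locAt R Q := by
    rintro x ⟨a, s, hs, e⟩
    exact ⟨a, s, fun hh => hs (hQP hh), e⟩
  set B := locAt R Q with hB
  have hBfrac : IsFractionRing B K := isFractionRing_of_le (le_locAt R Q)
  have : IsNoetherianRing B := IsLocalization.isNoetherianRing Q.primeCompl B inferInstance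
  have : IsIntegrallyClosed B :=
    isIntegrallyClosed_of_isLocalization (R := R) B Q.primeCompl Q.primeCompl_le_nonZeroDivisors
  have hh : ∀ r ∈ Q, (r : K) * ((g : K) * f) ∈ locAt R P := by
    intro r hr
    rw [hQg] at hr
    exact hr
  set h' : K := (g : K) * f with hh'
  have hnB : h' ∉ B := by
    rintro ⟨a, s, hs, e⟩
    apply hs
    rw [hQg, hJ, mul_comm, ← hh', e]
    exact le_locAt R P a.2
  have hmem : ∀ m : B, m ∈ IsLocalRing.maximalIdeal B → (m : K) * h' ∈ B := by
    intro m hm
    obtain ⟨a, s, hs, e⟩ := m.2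
    have ha : a ∈ Q := by
      by_contra ha
      apply (IsLocalRing.mem_maximalIdeal _).1 hm
      have hm0 : m ≠ 0 := by
        rintro rfl
        apply ne_zero_of_notMem ha
        rw [← e]
        simp
      rw [isUnit_iff_inv_mem m hm0]
      refine ⟨s, a, ha, ?_⟩
      rw [← e]
      have : (m : K) ≠ 0 := fun h0 => hm0 (Subtype.ext h0)
      field_simp
    have h2 : (m : K) * h' = (s : K)⁻¹ * ((a : K) * h') := by
      rw [← e]
      have := ne_zero_of_notMem hs
      field_simp
    rw [h2]
    exact B.mul_mem (inv_mem_locAt hs) (hPQ (hh a ha))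
  by_cases hcase : ∀ m : B, ∀ hm : m ∈ IsLocalRing.maximalIdeal B,
      (⟨(m : K) * h', hmem m hm⟩ : B) ∈ IsLocalRing.maximalIdeal B
  · -- `h'` is integral
    apply hnB
    by_cases hbot : IsLocalRing.maximalIdeal B = ⊥
    · -- `B` is a field, so it is `K`
      have hfield : IsField B := IsLocalRing.isField_iff_maximalIdeal_eq.2 hbot
      obtain ⟨a, s, e⟩ := IsLocalization.exists_mk'_eq (nonZeroDivisors B) h'
      have hs0 : (s : B) ≠ 0 := nonZeroDivisors.ne_zero s.2
      obtain ⟨b, hb⟩ := hfield.mul_inv_cancel hs0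
      have hb' : ((s : B) : K) * (b : K) = 1 := congrArg (fun z : B => (z : K)) hb
      have : h' = (a : K) * (b : K) := by
        rw [← inv_eq_of_mul_eq_one_right hb', ← e, IsFractionRing.mk'_eq_div, div_eq_mul_inv]
        rfl
      rw [this]
      exact B.mul_mem a.2 b.2
    · let N : Submodule B K := Submodule.map (Algebra.linearMap B K) (IsLocalRing.maximalIdeal B)
      have hN : N ≠ ⊥ := by
        intro h0
        apply hbot
        rw [eq_bot_iff]
        intro x hx
        have h1 : (x : K) ∈ N := ⟨x, hx, rfl⟩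
        rw [h0] at h1
        have : (x : K) = 0 := (Submodule.mem_bot B).1 h1
        exact (Submodule.mem_bot B).2 (Subtype.ext this)
      have hNfg : N.FG := (IsNoetherian.noetherian (IsLocalRing.maximalIdeal B)).map _
      have hint : IsIntegral B h' := by
        apply isIntegral_of_smul_mem_submodule N hN hNfg
        rintro _ ⟨m, hm, rfl⟩
        exact ⟨_, hcase m hm, mul_comm _ _⟩
      obtain ⟨y, hy⟩ := IsIntegrallyClosed.isIntegral_iff.1 hint
      rw [← hy]
      exact y.2
  · push Not at hcase
    obtain ⟨x, hx, hxu⟩ := hcase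
    have hu : IsUnit (⟨(x : K) * h', hmem x hx⟩ : B) := by
      by_contra hn
      exact hxu ((IsLocalRing.mem_maximalIdeal _).2 hn)
    have hxh : (x : K) * h' ≠ 0 := fun h0 => hu.ne_zero (Subtype.ext h0)
    have hx0 : (x : K) ≠ 0 := left_ne_zero_of_mul hxh
    have hh0 : h' ≠ 0 := right_ne_zero_of_mul hxh
    have hinv : ((x : K) * h')⁻¹ ∈ B := (isUnit_iff_inv_mem _ hu.ne_zero).1 hu
    have hhinv : h'⁻¹ ∈ B := by
      have : h'⁻¹ = (x : K) * ((x : K) * h')⁻¹ := by field_simp
      rw [this]
      exact B.mul_mem x.2 hinv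
    have hprin : (IsLocalRing.maximalIdeal B).IsPrincipal := by
      refine ⟨⟨⟨h'⁻¹, hhinv⟩, ?_⟩⟩
      apply le_antisymm
      · intro m hm
        rw [Ideal.submodule_span_eq, Ideal.mem_span_singleton']
        refine ⟨⟨(m : K) * h', hmem m hm⟩, Subtype.ext ?_⟩
        change (m : K) * h' * h'⁻¹ = (m : K)
        field_simp
      · rw [Ideal.submodule_span_eq, Ideal.span_singleton_le_iff_mem, IsLocalRing.mem_maximalIdeal]
        intro hun
        apply hnB
        have := (isUnit_iff_inv_mem _ hun.ne_zero).1 hun
        simpa using this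
    have hnf : ¬ IsField B := by
      rw [IsLocalRing.isField_iff_maximalIdeal_eq]
      intro h0
      rw [h0] at hx
      exact hx0 (congrArg (fun z : B => (z : K)) ((Submodule.mem_bot B).1 hx))
    have hdvr : IsDiscreteValuationRing B :=
      ((IsDiscreteValuationRing.TFAE B hnf).out 4 0).1 hprin
    apply hnB
    exact B.mul_mem (le_locAt R Q g.2) (h Q hQprime hQP hdvr)

end Pool.Agent.H968R2.FL
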