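import Pool.Agent.H968R2.FL.Cone
import Pool.Agent.H968R2.FL.Normal

/-! Properties of the coordinate ring of the cone. -/

noncomputable section

namespace Pool.Agent.H968R2.FL

open MvPolynomial

universe u

variable {k K : Type u} [Field k] [Field K] [Algebra k K] {m : ℕ}

namespace Coord

variable (C : Coord k K (m + 2)) (p : ℕ)

theorem exists_pow_mul_mem (hp : 1 ≤ p) {f : K} (hf : f ∈ C.ring) :
    ∃ N : ℕ, ∀ M : ℕ, N ≤ M → C.x 1 ^ M * f ∈ C.R p := by
  obtain ⟨F, rfl⟩ := C.exists_ev hf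
  refine ⟨F.support.sup fun e => e 0, fun M hM => ?_⟩
  have h1 : C.x 1 ^ M * C.ev F = C.ev (X 1 ^ M * F) := by rw [map_mul, map_pow, ev_X]
  rw [h1, mem_R_iff]
  intro e he
  rw [X_pow_eq_monomial] at he
  have he' : coeff e (monomial (Finsupp.single 1 M) 1 * F) ≠ 0 := mem_support_iff.1 he
  rw [coeff_monomial_mul'] at he'
  split_ifs at he' with hle
  · obtain ⟨w, rfl⟩ := exists_add_of_le hle
    rw [add_tsub_cancel_left, one_mul] at he'
    have hw : w ∈ F.support := mem_support_iff.2 he'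
    have h2 : w 0 ≤ F.support.sup fun e => e 0 := Finset.le_sup (f := fun e => e 0) hw
    have h3 : ((Finsupp.single (1 : Fin (m + 2)) M + w : Fin (m + 2) →₀ ℕ) : Fin (m + 2) → ℕ) 0 = w 0 := by
      simp
    have h4 : ((Finsupp.single (1 : Fin (m + 2)) M + w : Fin (m + 2) →₀ ℕ) : Fin (m + 2) → ℕ) 1 =
        M + w 1 := by simp
    rw [h3, h4]
    calc w 0 ≤ M := h2.trans hM
      _ ≤ 1 * (M + w 1) := by omega
      _ ≤ p * (M + w 1) := Nat.mul_le_mul_right _ hp
  · exact absurd rfl he'

theorem x_one_mem_R : C.x 1 ∈ C.R p := by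
  rw [← C.ev_X, mem_R_iff]
  intro e he
  have he' := Finset.mem_singleton.1 (support_monomial_subset he)
  subst he'
  simp

theorem x_one_ne_zero : C.x 1 ≠ 0 := C.x_ne_zero 1

theorem frac_R (hp : 1 ≤ p) : IsFractionRing (C.R p) K where
  map_units := by
    rintro ⟨b, hb⟩
    have hb0 : b ≠ 0 := nonZeroDivisors.ne_zero hb
    have : (b : K) ≠ 0 := fun h0 => hb0 (Subtype.ext h0)
    exact IsUnit.mk0 _ this
  surj := by
    intro z
    obtain ⟨a, s, hs, rfl⟩ := IsFractionRing.div_surjective (A := C.ring) z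
    obtain ⟨N, hN⟩ := C.exists_pow_mul_mem p hp a.2
    obtain ⟨M, hM⟩ := C.exists_pow_mul_mem p hp s.2
    have hs0 : (s : K) ≠ 0 := fun h0 => nonZeroDivisors.ne_zero hs (Subtype.ext h0)
    have hx := C.x_ne_zero 1
    refine ⟨(⟨_, hN (max N M) (le_max_left _ _)⟩, ⟨⟨_, hM (max N M) (le_max_right _ _)⟩, ?_⟩), ?_⟩
    · apply mem_nonZeroDivisors_of_ne_zero
      intro h0
      have := congrArg (fun z : C.R p => (z : K)) h0
      exact mul_ne_zero (pow_ne_zero _ hx) hs0 this
    · change (a : K) / (s : K) * (C.x 1 ^ max N M * (s : K)) = C.x 1 ^ max N M * (a : K)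
      field_simp
  exists_of_eq := by
    intro a b hab
    refine ⟨1, ?_⟩
    have : a = b := Subtype.ext hab
    rw [this]

theorem integrallyClosed_R (hp : 1 ≤ p) : IsIntegrallyClosed (C.R p) := by
  have := C.frac_R p hp
  rw [isIntegrallyClosed_iff K]
  intro f hf
  have h1 : f ∈ C.ring := by
    have : IsIntegral C.ring f := by
      let g : C.R p →+* C.ring := (Subalgebra.inclusion (C.R_le p)).toRingHom
      obtain ⟨P, hP, hP'⟩ := hf
      refine ⟨P.map g, hP.map g, ?_⟩
      rw [Polynomial.eval₂_map]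
      exact hP'
    obtain ⟨y, hy⟩ := IsIntegrallyClosed.isIntegral_iff.1 this
    rw [← hy]
    exact y.2
  have h2 : f ∈ (C.twist p).ring := by
    have : IsIntegral (C.twist p).ring f := by
      let g : C.R p →+* (C.twist p).ring := (Subalgebra.inclusion (C.R_le_twist p)).toRingHom
      obtain ⟨P, hP, hP'⟩ := hf
      refine ⟨P.map g, hP.map g, ?_⟩
      rw [Polynomial.eval₂_map]
      exact hP'
    obtain ⟨y, hy⟩ := IsIntegrallyClosed.isIntegral_iff.1 this
    rw [← hy]
    exact y.2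
  exact ⟨⟨f, h1, h2⟩, rfl⟩

/-- generators -/
def gen : Fin (p + 1) ⊕ Fin m → K
  | Sum.inl i => C.x 0 ^ (i : ℕ) * C.x 1
  | Sum.inr j => C.x j.succ.succ

theorem gen_mem_R (i : Fin (p + 1) ⊕ Fin m) : C.gen p i ∈ C.R p := by
  rcases i with i | j
  · have : C.gen p (Sum.inl i) = C.ev (monomial (Finsupp.single 0 (i : ℕ) + Finsupp.single 1 1) 1) := by
      change C.x 0 ^ (i : ℕ) * C.x 1 = _
      rw [ev_monomial, prod_split]
      simp [Fin.ext_iff]
    rw [this, mem_R_iff]
    intro e he
    have he' := Finset.mem_singleton.1 (support_monomial_subset he)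
    subst he'
    simp
    omega
  · change C.x j.succ.succ ∈ _
    rw [← C.ev_X, mem_R_iff]
    intro e he
    have he' := Finset.mem_singleton.1 (support_monomial_subset he)
    subst he'
    rw [Finsupp.single_eq_of_ne (by
      intro h
      have := congrArg Fin.val h
      simp at this)]
    simp

theorem pow_mem_adjoin (b : ℕ) : ∀ a : ℕ, a ≤ p * b →
    C.x 0 ^ a * C.x 1 ^ b ∈ Algebra.adjoin k (Set.range (C.gen p)) := by
  induction b with
  | zero =>
    intro a ha
    have : a = 0 := by simpa using ha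
    subst this
    simp
  | succ b ih =>
    intro a ha
    have h1 : a - p ≤ p * b := by
      rw [mul_add, mul_one] at ha
      omega
    have h2 := ih _ h1
    have h3 : C.gen p (Sum.inl ⟨min a p, by omega⟩) ∈ Algebra.adjoin k (Set.range (C.gen p)) :=
      Algebra.subset_adjoin ⟨_, rfl⟩
    have h4 : C.x 0 ^ a * C.x 1 ^ (b + 1) =
        C.x 0 ^ (a - p) * C.x 1 ^ b * C.gen p (Sum.inl ⟨min a p, by omega⟩) := by
      change _ = _ * (C.x 0 ^ (min a p) * C.x 1)
      have : a = (a - p) + min a p := by omega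
      conv_lhs => rw [this]
      rw [pow_add, pow_succ]
      ring
    rw [h4]
    exact Subalgebra.mul_mem _ h2 h3

theorem R_eq_adjoin : C.R p = Algebra.adjoin k (Set.range (C.gen p)) := by
  apply le_antisymm
  · intro f hf
    obtain ⟨F, rfl⟩ := C.exists_ev (C.R_le p hf)
    rw [mem_R_iff] at hf
    rw [F.as_sum, map_sum]
    refine Subalgebra.sum_mem _ fun e he => ?_
    rw [ev_monomial, prod_split]
    refine Subalgebra.mul_mem _ (Subalgebra.algebraMap_mem _ _) (Subalgebra.mul_mem _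
      (C.pow_mem_adjoin p _ _ (hf e he)) ?_)
    refine Subalgebra.prod_mem _ fun i _ => Subalgebra.pow_mem _ ?_ _
    exact Algebra.subset_adjoin ⟨Sum.inr i, rfl⟩
  · refine Algebra.adjoin_le ?_
    rintro _ ⟨i, rfl⟩
    exact C.gen_mem_R p i

theorem fg_R : (C.R p).FG := by
  rw [R_eq_adjoin]
  exact Subalgebra.fg_def.2 ⟨_, Set.finite_range _, rfl⟩

theorem noetherian_R : IsNoetherianRing (C.R p) := by
  have : Algebra.FiniteType k (C.R p) := (Subalgebra.fg_iff_finiteType _).1 (C.fg_R p)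
  exact Algebra.FiniteType.isNoetherianRing k _

end Coord

end Pool.Agent.H968R2.FL
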