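import Pool.Agent.H968R2.FL.FReg
import Pool.Agent.H968R2.FL.Param

/-! The resolution of the cone. -/

noncomputable section

namespace Pool.Agent.H968R2.FL

open MvPolynomial

universe u

variable {k K : Type u} [Field k] [Field K] [Algebra k K] {m : ℕ}

/-- the centre of a valuation ring on a subring -/
theorem exists_centre_val (R : Subalgebra k K) (V : ValuationSubring K) (h : ∀ f ∈ R, f ∈ V) :
    ∃ (P : Ideal R) (_ : P.IsPrime), Dominates (V : Set K) (locAt R P) := by
  let A : Subalgebra k K :=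
    { V.toSubring with
      algebraMap_mem' := fun c => h _ (R.algebraMap_mem c) }
  have hA : IsLocalRing A := inferInstanceAs (IsLocalRing V)
  exact exists_centre R A h

/-- a localisation dominated by `V` is contained in every other ring dominated by `V` which
contains the base ring -/
theorem locAt_le_of_dominates {R B : Subalgebra k K} {V : Set K} (P : Ideal R) [P.IsPrime]
    (hP : Dominates V (locAt R P)) (hB : Dominates V B) (hRB : R ≤ B) : locAt R P ≤ B := by
  rintro f ⟨a, s, hs, e⟩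
  have h1 : (s : K)⁻¹ ∈ V := hP.1 (inv_mem_locAt hs)
  have h2 : (s : K)⁻¹ ∈ B := hB.2 _ (hRB s.2) h1
  have h3 : f = (a : K) * (s : K)⁻¹ := by
    have := ne_zero_of_notMem hs
    rw [← e]
    field_simp
  rw [h3]
  exact B.mul_mem (hRB a.2) h2

theorem Dominates.refl (A : Set K) : Dominates A A := ⟨subset_rfl, fun _ _ h => h⟩

namespace Coord

variable (C : Coord k K (m + 2)) (p : ℕ)

theorem x_mem_R {i : Fin (m + 2)} (h0 : i ≠ 0) : C.x i ∈ C.R p := by
  by_cases h1 : i = 1
  · subst h1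
    exact C.x_one_mem_R p
  · refine ⟨C.x_mem i, ?_⟩
    have : C.x i = (C.twist p).x i := by rw [twist_x, twistX_of_ne _ _ h0 h1]
    rw [SetLike.mem_coe, this]
    exact x_mem _ _

theorem twist_x_mem_R {i : Fin (m + 2)} (h0 : i ≠ 0) : (C.twist p).x i ∈ C.R p := by
  rw [← twist_R]
  exact x_mem_R _ _ h0

/-- a subring which contains `R` and `x_0` contains the first polynomial ring -/
theorem ring_le {B : Subalgebra k K} (h : C.R p ≤ B) (h0 : C.x 0 ∈ B) : C.ring ≤ B := by
  refine Algebra.adjoin_le ?_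
  rintro _ ⟨i, rfl⟩
  by_cases hi : i = 0
  · subst hi
    exact h0
  · exact h (C.x_mem_R p hi)

theorem twist_ring_le {B : Subalgebra k K} (h : C.R p ≤ B) (h0 : (C.x 0)⁻¹ ∈ B) :
    (C.twist p).ring ≤ B := by
  refine (C.twist p).ring_le p ?_ ?_
  · rw [twist_R]
    exact h
  · rw [twist_x, twistX_zero]
    exact h0

theorem separated_aux (V : ValuationSubring K) (P : Ideal C.ring) (Q : Ideal (C.twist p).ring)
    [P.IsPrime] [Q.IsPrime] (hP : Dominates (V : Set K) (locAt C.ring P))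
    (hQ : Dominates (V : Set K) (locAt (C.twist p).ring Q)) :
    locAt C.ring P = locAt (C.twist p).ring Q := by
  have hx0 : C.x 0 ∈ locAt C.ring P := le_locAt _ _ (C.x_mem 0)
  have hx0' : (C.x 0)⁻¹ ∈ locAt (C.twist p).ring Q := by
    apply le_locAt
    have := (C.twist p).x_mem 0
    rwa [twist_x, twistX_zero] at this
  have h1 : (C.x 0)⁻¹ ∈ locAt C.ring P := hP.2 _ hx0 (hQ.1 hx0')
  have h2 : C.x 0 ∈ locAt (C.twist p).ring Q := by
    have := hQ.2 _ hx0' (by rw [inv_inv]; exact hP.1 hx0)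
    rwa [inv_inv] at this
  apply le_antisymm
  · exact locAt_le_of_dominates P hP hQ
      (C.ring_le p ((C.R_le_twist p).trans (le_locAt _ _)) h2)
  · exact locAt_le_of_dominates Q hQ hP
      (C.twist_ring_le p ((C.R_le p).trans (le_locAt _ _)) h1)

/-- the total space of the line bundle of degree `-p` on the projective line, times affine
`m`-space -/
def reso : Variety k K where
  ι := Bool
  finite := inferInstance
  nonempty := inferInstance
  chart := fun b => bif b then (C.twist p).ring else C.ring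
  fg := fun b => by
    cases b
    · exact C.fg
    · exact (C.twist p).fg
  frac := fun b => by
    cases b
    · exact C.frac
    · exact (C.twist p).frac
  separated := by
    intro V i j P Q A B hP hQ hA hB hVA hVB
    cases i <;> cases j
    · rw [hA.eq] at hVA ⊢
      rw [hB.eq] at hVB ⊢
      exact locAt_eq_of_dominates P Q hVA hVB
    · rw [hA.eq] at hVA ⊢
      rw [hB.eq] at hVB ⊢
      exact C.separated_aux p V P Q hVA hVB
    · rw [hA.eq] at hVA ⊢
      rw [hB.eq] at hVB ⊢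
      exact (C.separated_aux p V Q P hVB hVA).symm
    · rw [hA.eq] at hVA ⊢
      rw [hB.eq] at hVB ⊢
      exact locAt_eq_of_dominates P Q hVA hVB

theorem mem_Y_points {A : Subalgebra k K} : A ∈ (C.reso p).points ↔
    (∃ (P : Ideal C.ring) (_ : P.IsPrime), A = locAt C.ring P) ∨
      ∃ (P : Ideal (C.twist p).ring) (_ : P.IsPrime), A = locAt (C.twist p).ring P := by
  constructor
  · rintro ⟨i, P, hP, hA⟩
    cases i
    · exact Or.inl ⟨P, hP, hA.eq⟩
    · exact Or.inr ⟨P, hP, hA.eq⟩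
  · rintro (⟨P, hP, rfl⟩ | ⟨P, hP, rfl⟩)
    · exact ⟨false, P, hP, isLocalizationAt_locAt _ P⟩
    · exact ⟨true, P, hP, isLocalizationAt_locAt _ P⟩

theorem mem_X_points {hp : 1 ≤ p} {A : Subalgebra k K} : A ∈ (C.cone p hp).points ↔
    ∃ (P : Ideal (C.R p)) (_ : P.IsPrime), A = locAt (C.R p) P := mem_affine_points

theorem locAt_congr {R R' : Subalgebra k K} (h : R = R') :
    {A | ∃ (P : Ideal R) (_ : P.IsPrime), A = locAt R P} =
      {A | ∃ (P : Ideal R') (_ : P.IsPrime), A = locAt R' P} := by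
  subst h
  rfl

theorem twist_Y_points : ((C.twist p).reso p).points = (C.reso p).points := by
  ext A
  rw [mem_Y_points, mem_Y_points]
  have h := Set.ext_iff.1 (locAt_congr (C.twist_twist_ring p)) A
  simp only [Set.mem_ofPred_eq] at h
  rw [h, or_comm]

theorem twist_X_points (hp : 1 ≤ p) : ((C.twist p).cone p hp).points = (C.cone p hp).points := by
  ext A
  rw [mem_X_points, mem_X_points]
  have h := Set.ext_iff.1 (locAt_congr (C.twist_R p)) A
  simpa only [Set.mem_ofPred_eq] using h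

theorem R_le_of_mem {A : Subalgebra k K} (h : A ∈ (C.reso p).points) : C.R p ≤ A ∧ IsLocalRing A := by
  rw [mem_Y_points] at h
  rcases h with ⟨P, hP, rfl⟩ | ⟨P, hP, rfl⟩
  · exact ⟨(C.R_le p).trans (le_locAt _ _), inferInstance⟩
  · exact ⟨(C.R_le_twist p).trans (le_locAt _ _), inferInstance⟩

theorem isMorphism (hp : 1 ≤ p) : Variety.IsMorphism (C.reso p) (C.cone p hp) := by
  intro B hB
  obtain ⟨h1, h2⟩ := C.R_le_of_mem p hB
  obtain ⟨P, hP, hd⟩ := exists_centre (C.R p) B h1
  exact ⟨_, (C.mem_X_points p).2 ⟨P, hP, rfl⟩, hd⟩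

theorem isProper (hp : 1 ≤ p) : Variety.IsProper (C.reso p) (C.cone p hp) := by
  rintro V ⟨A, hA, hVA⟩
  obtain ⟨P, hP, rfl⟩ := (C.mem_X_points p).1 hA
  let V' : Subalgebra k K :=
    { V.toSubring with
      algebraMap_mem' := fun c => hVA.1 ((locAt (C.R p) P).algebraMap_mem c) }
  have hR : C.R p ≤ V' := fun f hf => hVA.1 (le_locAt _ _ hf)
  rcases V.mem_or_inv_mem (C.x 0) with h | h
  · have hle : C.ring ≤ V' := C.ring_le p hR h
    obtain ⟨Q, hQ, hd⟩ := exists_centre_val C.ring V hle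
    exact ⟨_, (C.mem_Y_points p).2 (Or.inl ⟨Q, hQ, rfl⟩), hd⟩
  · have hle : (C.twist p).ring ≤ V' := C.twist_ring_le p hR h
    obtain ⟨Q, hQ, hd⟩ := exists_centre_val (C.twist p).ring V hle
    exact ⟨_, (C.mem_Y_points p).2 (Or.inr ⟨Q, hQ, rfl⟩), hd⟩

theorem smooth_Y : ∀ B ∈ (C.reso p).points, Variety.SmoothAt B := by
  intro B hB
  rw [mem_Y_points] at hB
  rcases hB with ⟨P, hP, rfl⟩ | ⟨P, hP, rfl⟩
  · exact C.smooth_locAt P
  · exact (C.twist p).smooth_locAt P

/-- `b ∈ R` with `x_0 b ∈ R` is divisible by `x_1` in the polynomial ring -/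
theorem exists_eq_mul {b : K} (hb : b ∈ C.R p) (hb' : C.x 0 * b ∈ C.R p) :
    ∃ c ∈ C.ring, b = C.x 1 * c := by
  obtain ⟨F, rfl⟩ := C.exists_ev (C.R_le p hb)
  have h1 : C.x 0 * C.ev F = C.ev (X 0 * F) := by rw [map_mul, ev_X]
  rw [h1, mem_R_iff] at hb'
  have h2 : ∀ e ∈ F.support, 1 ≤ e 1 := by
    intro e he
    by_contra hcon
    have he1 : e 1 = 0 := by omega
    have h3 := hb' (Finsupp.single 0 1 + e) (by
      rw [mem_support_iff, X, coeff_monomial_mul, one_mul]
      exact mem_support_iff.1 he)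
    simp [he1] at h3
  have h3 : (X 1 : MvPolynomial (Fin (m + 2)) k) ∣ F := by
    rw [F.as_sum]
    refine Finset.dvd_sum fun e he => ?_
    have h4 : e = Finsupp.single 1 1 + (e - Finsupp.single 1 1) := by
      rw [add_tsub_cancel_of_le]
      rw [Finsupp.single_le_iff]
      exact h2 e he
    rw [h4, ← one_mul (coeff _ F), ← monomial_mul]
    exact Dvd.intro _ rfl
  obtain ⟨G, rfl⟩ := h3
  exact ⟨C.ev G, C.ev_mem G, by rw [map_mul, ev_X]⟩

/-- a point of `Y` which contains `x_0` and in which `x_1` is not a unit is not a point of `X` -/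
theorem notMem_X_points (hp : 1 ≤ p) {A : Subalgebra k K} (hA : A ∈ (C.reso p).points)
    (h0 : C.x 0 ∈ A) (h1 : (C.x 1)⁻¹ ∉ A) : A ∉ (C.cone p hp).points := by
  intro hX
  obtain ⟨Q, hQ, rfl⟩ := (C.mem_X_points p).1 hX
  obtain ⟨a, b, hb, e⟩ := h0
  obtain ⟨c, hc, hbc⟩ := C.exists_eq_mul p b.2 (by rw [e]; exact a.2)
  have hring : C.ring ≤ locAt (C.R p) Q := C.ring_le p (C.R_le_of_mem p hA).1 ⟨a, b, hb, e⟩
  apply h1
  have h2 := inv_mem_locAt hb
  have h3 : (C.x 1)⁻¹ = c * (b : K)⁻¹ := by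
    have hb0 := ne_zero_of_notMem hb
    have hx := C.x_ne_zero 1
    have hc0 : c ≠ 0 := by
      rintro rfl
      rw [mul_zero] at hbc
      exact hb0 hbc
    rw [hbc]
    field_simp
  rw [h3]
  exact (locAt (C.R p) Q).mul_mem (hring hc) h2

/-- a point of `Y` in which `x_1` is a unit is a point of `X` -/
theorem mem_X_points_of_inv (hp : 1 ≤ p) {A : Subalgebra k K} (hA : A ∈ (C.reso p).points)
    (h1 : (C.x 1)⁻¹ ∈ A) : A ∈ (C.cone p hp).points := by
  obtain ⟨hR, hloc⟩ := C.R_le_of_mem p hA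
  obtain ⟨Q, hQ, hd⟩ := exists_centre (C.R p) A hR
  have h2 : (C.x 1)⁻¹ ∈ locAt (C.R p) Q := hd.2 _ (le_locAt _ _ (C.x_one_mem_R p)) h1
  have h3 : C.x 0 ∈ locAt (C.R p) Q := by
    have h4 : C.x 0 * C.x 1 ∈ C.R p := by
      have := C.gen_mem_R p (Sum.inl ⟨1, by omega⟩)
      simpa [gen] using this
    have h5 : C.x 0 = (C.x 0 * C.x 1) * (C.x 1)⁻¹ := by
      have := C.x_ne_zero 1
      field_simp
    rw [h5]
    exact (locAt (C.R p) Q).mul_mem (le_locAt _ _ h4) h2
  rw [mem_X_points]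
  refine ⟨Q, hQ, le_antisymm ?_ hd.1⟩
  rw [mem_Y_points] at hA
  rcases hA with ⟨P, hP, rfl⟩ | ⟨P, hP, rfl⟩
  · exact locAt_le_of_dominates P (Dominates.refl _) hd
      (C.ring_le p (le_locAt _ _) h3)
  · have h6 : (C.x 0)⁻¹ ∈ locAt (C.twist p).ring P := by
      apply le_locAt
      have := (C.twist p).x_mem 0
      rwa [twist_x, twistX_zero] at this
    exact locAt_le_of_dominates P (Dominates.refl _) hd
      (C.twist_ring_le p (le_locAt _ _) (hd.2 _ h3 h6))

end Coord

end Pool.Agent.H968R2.FL
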